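import Pool.Agent.H36.BK.Stubs

set_option autoImplicit false

open Finset Filter Topology
open scoped Classical

namespace Pool.Agent.H36.BK

open Pool.Agent.H36.BK.LW

namespace P07

theorem cnt_cast (α : Type) [Fintype α] [PartialOrder α] (M : ℕ) (Q : (α → ℕ) → Prop) :
    (cnt α M Q : ℝ) = ∑ f ∈ Om α M, if Q f then (1 : ℝ) else 0 := by
  unfold cnt
  rw [Finset.sum_boole]

theorem sum_ind {M v : ℕ} (h : v < M) :
    ∑ s ∈ range M, (if v ≤ s then (1 : ℝ) else 0) = (M : ℝ) - v := by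
  rw [Finset.sum_boole]
  have h1 : (range M).filter (fun s => v ≤ s) = Ico v M := by
    ext s
    simp only [mem_filter, mem_range, mem_Ico]
    tauto
  rw [h1, Nat.card_Ico, Nat.cast_sub h.le]

theorem prod_sums {ι : Type} [Fintype ι] (R : Finset ℕ) (a b : ι → ℕ → ℝ) :
    (∑ x, ∑ s ∈ R, a x s) * (∑ y, ∑ t ∈ R, b y t) =
      ∑ x, ∑ y, ∑ s ∈ R, ∑ t ∈ R, a x s * b y t := by
  rw [Finset.sum_mul_sum]
  refine sum_congr rfl fun x _ => sum_congr rfl fun y _ => ?_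
  rw [Finset.sum_mul_sum]

theorem total (α : Type) [Fintype α] [PartialOrder α] (M : ℕ) :
    ∑ x : α, ∑ y : α, ∑ s ∈ range M, ∑ t ∈ range M, Hs α M x y s t =
      (Om α M).card * (∑ f ∈ Om α M, (∑ x, ((M : ℝ) - f x)) ^ 2) -
        (∑ f ∈ Om α M, ∑ x, ((M : ℝ) - f x)) ^ 2 := by
  have hW : ∀ f ∈ Om α M, ∑ x, ((M : ℝ) - f x) =
      ∑ x, ∑ s ∈ range M, (if f x ≤ s then (1 : ℝ) else 0) := by
    intro f hf
    refine sum_congr rfl fun x _ => ?_
    rw [sum_ind ((mem_Om.1 hf).1 x)]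
  have h1 : ∑ f ∈ Om α M, (∑ x, ((M : ℝ) - f x)) ^ 2 =
      ∑ x : α, ∑ y : α, ∑ s ∈ range M, ∑ t ∈ range M,
        (cnt α M (fun f => f x ≤ s ∧ f y ≤ t) : ℝ) := by
    have e1 : ∑ f ∈ Om α M, (∑ x, ((M : ℝ) - f x)) ^ 2 =
        ∑ f ∈ Om α M, ∑ x : α, ∑ y : α, ∑ s ∈ range M, ∑ t ∈ range M,
          (if f x ≤ s then (1 : ℝ) else 0) * (if f y ≤ t then (1 : ℝ) else 0) := by
      refine sum_congr rfl fun f hf => ?_
      rw [hW f hf, sq, prod_sums]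
    rw [e1, sum_comm]
    refine sum_congr rfl fun x _ => ?_
    rw [sum_comm]
    refine sum_congr rfl fun y _ => ?_
    rw [sum_comm]
    refine sum_congr rfl fun s _ => ?_
    rw [sum_comm]
    refine sum_congr rfl fun t _ => ?_
    rw [cnt_cast]
    refine sum_congr rfl fun f _ => ?_
    by_cases h1 : f x ≤ s <;> by_cases h2 : f y ≤ t <;> simp [h1, h2]
  have h2 : ∑ f ∈ Om α M, ∑ x, ((M : ℝ) - f x) =
      ∑ x : α, ∑ s ∈ range M, (cnt α M (fun f => f x ≤ s) : ℝ) := by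
    rw [sum_congr rfl hW, sum_comm]
    refine sum_congr rfl fun x _ => ?_
    rw [sum_comm]
    refine sum_congr rfl fun s _ => ?_
    rw [cnt_cast]
    refine sum_congr rfl fun f _ => ?_
    by_cases h1 : f x ≤ s <;> simp [h1]
  rw [h1, h2, sq, prod_sums, Finset.mul_sum, ← Finset.sum_sub_distrib]
  refine sum_congr rfl fun x _ => ?_
  rw [Finset.mul_sum, ← Finset.sum_sub_distrib]
  refine sum_congr rfl fun y _ => ?_
  rw [Finset.mul_sum, ← Finset.sum_sub_distrib]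
  refine sum_congr rfl fun s _ => ?_
  rw [Finset.mul_sum, ← Finset.sum_sub_distrib]
  refine sum_congr rfl fun t _ => ?_
  unfold Hs
  ring

theorem var_le {ι : Type} (S : Finset ι) (W : ι → ℝ) (c : ℝ) :
    (S.card : ℝ) * (∑ f ∈ S, W f ^ 2) - (∑ f ∈ S, W f) ^ 2 ≤
      (S.card : ℝ) * ∑ f ∈ S, (W f - c) ^ 2 := by
  have h1 : ∑ f ∈ S, (W f - c) ^ 2 = ∑ f ∈ S, W f ^ 2 - 2 * c * ∑ f ∈ S, W f + S.card * c ^ 2 := by
    rw [Finset.mul_sum, ← Finset.sum_sub_distrib]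
    have : (S.card : ℝ) * c ^ 2 = ∑ f ∈ S, c ^ 2 := by rw [sum_const, nsmul_eq_mul]
    rw [this, ← Finset.sum_add_distrib]
    refine sum_congr rfl fun f _ => ?_
    ring
  rw [h1]
  nlinarith [sq_nonneg (∑ f ∈ S, W f - S.card * c)]

end P07

theorem cov : S_var → S_cov := by
  intro hvar α _ _
  filter_upwards [hvar α] with M hM
  rw [P07.total]
  refine (P07.var_le _ _ ((Fintype.card α : ℝ) * ((M : ℝ) + 1) / 2)).trans ?_
  have h1 : ∑ f ∈ Om α M, (∑ x, ((M : ℝ) - f x) - (Fintype.card α : ℝ) * ((M : ℝ) + 1) / 2) ^ 2 =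
      ∑ f ∈ Om α M, (∑ z, (f z : ℝ) - Fintype.card α * ((M : ℝ) - 1) / 2) ^ 2 := by
    refine sum_congr rfl fun f _ => ?_
    rw [Finset.sum_sub_distrib, sum_const, nsmul_eq_mul, Finset.card_univ]
    ring
  rw [h1]
  calc ((Om α M).card : ℝ) * ∑ f ∈ Om α M, (∑ z, (f z : ℝ) - Fintype.card α * ((M : ℝ) - 1) / 2) ^ 2
      ≤ (Om α M).card * ((Fintype.card α : ℝ) / 6 * (M : ℝ) ^ 2 * (Om α M).card) :=
        mul_le_mul_of_nonneg_left hM (Nat.cast_nonneg _)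
    _ = _ := by ring

end Pool.Agent.H36.BK
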