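import Pool.Agent.H36.BK.Stubs

set_option autoImplicit false

open Finset Filter Topology
open scoped Classical

namespace Pool.Agent.H36.BK

open Pool.Agent.H36.BK.LW

theorem spread : S_spread := by
  intro α _ _ M x t c r hr
  have hA : IsAntichain (· ≤ ·) (({x} : Finset α) : Set α) := by
    rw [Finset.coe_singleton]; exact Set.subsingleton_singleton.isAntichain _
  have hx : x ∈ ({x} : Finset α) := Finset.mem_singleton_self x
  have hc1 : cnt α M (fun f => t < len M f x ∧ c < f x + r ∧ f x < c + r) =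
      ((Om α M).filter fun f => t < len M f x ∧ c < f x + r ∧ f x < c + r).card := by
    unfold cnt; congr!
  have hc2 : cnt α M (fun f => t < len M f x) =
      ((Om α M).filter fun f => t < len M f x).card := by
    unfold cnt; congr!
  rw [hc1, hc2]
  set E := (Om α M).filter fun f => t < len M f x ∧ c < f x + r ∧ f x < c + r with hEdef
  set E' := (Om α M).filter fun f => t < len M f x with hEdef'
  have hE : E ⊆ Om α M := Finset.filter_subset _ _
  set H := E.image (pr {x}) with hH
  have h1 : E.card ≤ ∑ h ∈ H, (2 * r - 1) := by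
    rw [Finset.card_eq_sum_card_image (pr {x}) E]
    refine Finset.sum_le_sum fun h _ => ?_
    have hsub : ((E.filter fun f => pr {x} f = h).image fun f => f x) ⊆
        Finset.Ico (c + 1 - r) (c + r) := by
      intro v hv
      obtain ⟨f, hf, rfl⟩ := Finset.mem_image.mp hv
      obtain ⟨hfE, hfh⟩ := Finset.mem_filter.mp hf
      obtain ⟨_, _, hc1, hc2⟩ := Finset.mem_filter.mp hfE
      rw [Finset.mem_Ico]
      omega
    have hinj : Set.InjOn (fun f : α → ℕ => f x)
        ((E.filter fun f => pr {x} f = h : Finset (α → ℕ)) : Set (α → ℕ)) := by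
      intro f hf g hg hfg
      obtain ⟨_, hfh⟩ := Finset.mem_filter.mp hf
      obtain ⟨_, hgh⟩ := Finset.mem_filter.mp hg
      funext z
      by_cases hz : z ∈ ({x} : Finset α)
      · rw [Finset.mem_singleton.mp hz]; exact hfg
      · rw [← pr_off (f := f) hz, ← pr_off (f := g) hz, hfh, hgh]
    rw [← Finset.card_image_of_injOn hinj]
    calc _ ≤ (Finset.Ico (c + 1 - r) (c + r)).card := Finset.card_le_card hsub
      _ ≤ 2 * r - 1 := by rw [Nat.card_Ico]; omega
  have h2 : ∑ h ∈ H, (fibE {x} M 0 h).card ≤ E'.card := by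
    rw [← Finset.card_biUnion]
    · refine Finset.card_le_card fun f hf => ?_
      obtain ⟨h, hh, hfh⟩ := Finset.mem_biUnion.mp hf
      obtain ⟨f₀, hf₀, rfl⟩ := Finset.mem_image.mp hh
      rw [hEdef', Finset.mem_filter]
      refine ⟨fibE_subset hA (m := 0) (hE hf₀) hfh, ?_⟩
      have e1 := pr_of_mem_fib hA hfh
      rw [← len_pr hA (M := M) (f := f) hx, e1, len_pr hA hx]
      exact (Finset.mem_filter.mp hf₀).2.1
    · intro h hh h' hh' hne
      obtain ⟨f₀, hf₀, rfl⟩ := Finset.mem_image.mp hh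
      obtain ⟨f₁, hf₁, rfl⟩ := Finset.mem_image.mp hh'
      rw [Function.onFun, Finset.disjoint_left]
      intro f hf hf'
      exact hne (eq_of_mem_fibE hA hf hf')
  have h3 : ∀ h ∈ H, t + 1 ≤ (fibE {x} M 0 h).card := by
    intro h hh
    obtain ⟨f₀, hf₀, rfl⟩ := Finset.mem_image.mp hh
    obtain ⟨_, hlen, _⟩ := Finset.mem_filter.mp hf₀
    rw [card_fibE, Finset.prod_singleton, lo_pr hA hx, hi_pr hA hx]
    unfold len at hlen
    omega
  calc E.card * (t + 1) ≤ (∑ h ∈ H, (2 * r - 1)) * (t + 1) := Nat.mul_le_mul_right _ h1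
    _ = (2 * r - 1) * ∑ h ∈ H, (t + 1) := by
        simp only [Finset.sum_const, smul_eq_mul]; ring
    _ ≤ (2 * r - 1) * ∑ h ∈ H, (fibE {x} M 0 h).card :=
        Nat.mul_le_mul_left _ (Finset.sum_le_sum h3)
    _ ≤ _ := Nat.mul_le_mul_left _ h2

end Pool.Agent.H36.BK
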