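import Pool.Agent.H36.BK.Stubs

set_option autoImplicit false

open Finset Filter Topology
open scoped Classical

namespace Pool.Agent.H36.BK

open Pool.Agent.H36.BK.LW

namespace P11

variable {α : Type} [Fintype α] [PartialOrder α] {M : ℕ}

theorem cnt_mono {Q R : (α → ℕ) → Prop} (h : ∀ f ∈ Om α M, Q f → R f) :
    cnt α M Q ≤ cnt α M R := by
  unfold cnt
  refine Finset.card_le_card fun f hf => ?_
  rw [mem_filter] at hf ⊢
  exact ⟨hf.1, h f hf.1 hf.2⟩

theorem cnt_add_not (Q : (α → ℕ) → Prop) :
    cnt α M Q + cnt α M (fun f => ¬ Q f) = (Om α M).card := by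
  unfold cnt
  convert Finset.card_filter_add_card_filter_not (s := Om α M) Q

theorem cnt_le_add {Q R S : (α → ℕ) → Prop} (h : ∀ f ∈ Om α M, Q f → R f ∨ S f) :
    cnt α M Q ≤ cnt α M R + cnt α M S := by
  unfold cnt
  rw [← Finset.card_union_add_card_inter]
  refine le_trans (Finset.card_le_card ?_) (Nat.le_add_right _ _)
  intro f hf
  rw [mem_filter] at hf
  rw [mem_union, mem_filter, mem_filter]
  rcases h f hf.1 hf.2 with h1 | h1
  · exact Or.inl ⟨hf.1, h1⟩
  · exact Or.inr ⟨hf.1, h1⟩

/-- counting by the value at `x` -/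
theorem sum_Nx (x : α) (R : ℕ → Prop) :
    ∑ j ∈ (range M).filter R, Nx α M x j = cnt α M (fun f => R (f x)) := by
  unfold Nx cnt
  rw [← Finset.card_biUnion]
  · congr 1
    ext f
    simp only [mem_biUnion, mem_filter, mem_range]
    constructor
    · rintro ⟨j, ⟨_, hj⟩, hf, rfl⟩
      exact ⟨hf, hj⟩
    · rintro ⟨hf, hR⟩
      exact ⟨f x, ⟨(mem_Om.1 hf).1 x, hR⟩, hf, rfl⟩
  · intro i _ j _ hij
    rw [Function.onFun, Finset.disjoint_left]
    intro f h1 h2
    simp only [mem_filter] at h1 h2
    exact hij (h1.2.symm.trans h2.2)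

theorem sum_Nx_all (x : α) :
    ∑ j ∈ range M, Nx α M x j = (Om α M).card := by
  have h := sum_Nx (M := M) x (fun _ => True)
  have e1 : (range M).filter (fun _ => True) = range M := by simp
  have e2 : cnt α M (fun _ => True) = (Om α M).card := by simp [cnt]
  rw [e2] at h
  rw [← h]
  refine sum_congr ?_ fun _ _ => rfl
  ext j; simp

theorem cnt_le (Q : (α → ℕ) → Prop) :
    cnt α M Q ≤ (Om α M).card := Finset.card_filter_le _ _

theorem dbl (A : Finset α) (Q : α → (α → ℕ) → Prop) :
    ∑ x ∈ A, cnt α M (Q x) = ∑ f ∈ Om α M, (A.filter fun x => Q x f).card := by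
  unfold cnt
  simp only [Finset.card_filter]
  exact Finset.sum_comm

/-- double counting -/
theorem many (A : Finset α) (Q : α → (α → ℕ) → Prop)
    (h : 4 * cnt α M (fun f => A.card ≤ 2 * (A.filter fun x => ¬ Q x f).card) ≤
      (Om α M).card) :
    A.card ≤ 6 * (A.filter fun x => (Om α M).card ≤ 4 * cnt α M (Q x)).card := by
  rcases Nat.eq_zero_or_pos (Om α M).card with hT | hT
  · have : A.filter (fun x => (Om α M).card ≤ 4 * cnt α M (Q x)) = A := by
      apply Finset.filter_true_of_mem
      intro x _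
      rw [hT]; exact Nat.zero_le _
    rw [this]; omega
  have hgT := cnt_add_not (M := M) (fun f => A.card ≤ 2 * (A.filter fun x => ¬ Q x f).card)
  set T := (Om α M).card with hTdef
  set B := A.filter fun x => T ≤ 4 * cnt α M (Q x) with hB
  set g : ℕ := cnt α M (fun f => ¬ A.card ≤ 2 * (A.filter fun x => ¬ Q x f).card) with hg
  have h2 : g * A.card ≤ 2 * ∑ f ∈ Om α M, (A.filter fun x => Q x f).card := by
    have e1 : g * A.card = ∑ f ∈ (Om α M).filter
        (fun f => ¬ A.card ≤ 2 * (A.filter fun x => ¬ Q x f).card), A.card := by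
      rw [Finset.sum_const, smul_eq_mul, hg]
      congr 1
      unfold cnt
      congr!
    rw [e1, Finset.mul_sum]
    refine le_trans (Finset.sum_le_sum ?_) (Finset.sum_le_sum_of_subset (Finset.filter_subset _ _))
    intro f hf
    rw [mem_filter] at hf
    have e2 := hf.2
    have e3 := Finset.card_filter_add_card_filter_not (s := A) (fun x => Q x f)
    omega
  rw [← dbl] at h2
  have h3 : 4 * ∑ x ∈ A, cnt α M (Q x) ≤ 3 * (B.card * T) + A.card * T := by
    rw [← Finset.sum_filter_add_sum_filter_not A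
      (fun x => T ≤ 4 * cnt α M (Q x)), mul_add]
    have e1 : ∑ x ∈ A.filter (fun x => T ≤ 4 * cnt α M (Q x)),
        cnt α M (Q x) ≤ B.card * T := by
      rw [← smul_eq_mul, ← Finset.sum_const]
      exact Finset.sum_le_sum fun x _ => cnt_le _
    have e2 : 4 * ∑ x ∈ A.filter (fun x => ¬ T ≤ 4 * cnt α M (Q x)),
        cnt α M (Q x) ≤
        (A.filter (fun x => ¬ T ≤ 4 * cnt α M (Q x))).card * T := by
      rw [← smul_eq_mul (a := Finset.card _), ← Finset.sum_const, Finset.mul_sum]
      refine Finset.sum_le_sum fun x hx => ?_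
      have := (mem_filter.1 hx).2
      omega
    have e3 := Finset.card_filter_add_card_filter_not (s := A)
      (fun x => T ≤ 4 * cnt α M (Q x))
    have e4 : (A.filter (fun x => ¬ T ≤ 4 * cnt α M (Q x))).card * T + B.card * T
        = A.card * T := by
      rw [← add_mul, ← e3, add_comm]
    omega
  -- conclusion
  have h4 : 3 * T ≤ 4 * g := by omega
  have h5 : 3 * T * A.card ≤ 6 * (B.card * T) + 2 * (A.card * T) := by
    calc 3 * T * A.card ≤ 4 * g * A.card := Nat.mul_le_mul_right _ h4
      _ = 4 * (g * A.card) := by ring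
      _ ≤ 4 * (2 * ∑ x ∈ A, cnt α M (Q x)) := by omega
      _ = 2 * (4 * ∑ x ∈ A, cnt α M (Q x)) := by ring
      _ ≤ 2 * (3 * (B.card * T) + A.card * T) := by omega
      _ = _ := by ring
  have h6 : A.card * T ≤ 6 * B.card * T := by
    have : 3 * T * A.card = 3 * (A.card * T) := by ring
    have h7 : 6 * B.card * T = 6 * (B.card * T) := by ring
    omega
  exact Nat.le_of_mul_le_mul_right h6 hT

end P11

theorem dens : S_four → S_spread → S_lc → S_few → S_dens := by
  intro hfour hspread hlc hfew α _ _ κ A hA hne hcard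
  filter_upwards [hfew α κ A hA hne hcard, eventually_ge_atTop (2 ^ (2 * κ + 6))] with M hM hMl
  set P : ℕ := 2 ^ (2 * κ + 6) with hP
  have hP0 : 0 < P := by positivity
  set t : ℕ := M / P with ht
  have ht1 : 1 ≤ t := by
    rw [ht]
    exact (Nat.one_le_div_iff hP0).2 hMl
  set r : ℕ := (t + 3) / 4 with hr
  have hr1 : 1 ≤ r := by omega
  have hr2 : t ≤ 4 * r := by omega
  have hr3 : 2 * (2 * r - 1) ≤ t + 1 := by omega
  have hmany : A.card ≤ 6 * (A.filter fun x => (Om α M).card ≤
      4 * cnt α M (fun f => t < len M f x)).card := by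
    refine P11.many A (fun x f => t < len M f x) (le_trans (Nat.mul_le_mul_left _ ?_) hM)
    refine P11.cnt_mono fun f _ hf => ?_
    have e : (A.filter fun x => ¬ t < len M f x) = A.filter fun x => len M f x ≤ t := by
      ext x
      simp only [mem_filter, not_lt]
    convert hf using 3
    rw [← e]
    congr!
  refine hmany.trans ?_
  refine Nat.mul_le_mul_left _ (Finset.card_le_card ?_)
  intro x hx
  obtain ⟨hxA, hx4⟩ := mem_filter.1 hx
  rw [mem_filter]
  refine ⟨hxA, fun j => ?_⟩
  have key := hlc (Nx α M x) M r hr1 ?_ ?_ ?_ j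
  · rw [P11.sum_Nx_all] at key
    -- arithmetic
    have h1 : M < (t + 1) * P := by
      have := Nat.lt_div_mul_add hP0 (a := M)
      rw [← ht] at this
      linarith
    have h2 : M ≤ 8 * r * P := by
      have : t + 1 ≤ 8 * r := by omega
      exact h1.le.trans (Nat.mul_le_mul_right _ this)
    have h3 : (2 : ℕ) ^ (2 * κ + 13) = 128 * P := by
      rw [hP, show 2 * κ + 13 = 7 + (2 * κ + 6) by ring, pow_add]; norm_num
    rw [h3]
    calc Nx α M x j * M ≤ Nx α M x j * (8 * r * P) := Nat.mul_le_mul_left _ h2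
      _ = 8 * P * (Nx α M x j * r) := by ring
      _ ≤ 8 * P * (16 * (Om α M).card) := Nat.mul_le_mul_left _ key
      _ = _ := by ring
  · intro j hj
    unfold Nx cnt
    rw [Finset.card_eq_zero, Finset.eq_empty_iff_forall_notMem]
    intro f hf
    simp only [mem_filter] at hf
    have := (mem_Om.1 hf.1).1 x
    omega
  · intro a b c d hab hac habcd
    exact hfour α M x a b c d hab hac habcd
  · intro c
    have e0 : ∑ j ∈ (range M).filter (fun j => c + r ≤ j ∨ j + r ≤ c), Nx α M x j =
        cnt α M (fun f => c + r ≤ f x ∨ f x + r ≤ c) := by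
      rw [← P11.sum_Nx x (fun j => c + r ≤ j ∨ j + r ≤ c)]
      congr!
    rw [P11.sum_Nx_all, e0]
    have h1 := hspread α M x t c r hr1
    have h2 : 2 * cnt α M (fun f => t < len M f x ∧ c < f x + r ∧ f x < c + r) ≤
        cnt α M fun f => t < len M f x := by
      have h3 : 2 * cnt α M (fun f => t < len M f x ∧ c < f x + r ∧ f x < c + r) * (t + 1) ≤
          (cnt α M fun f => t < len M f x) * (t + 1) := by
        calc _ = 2 * (cnt α M (fun f => t < len M f x ∧ c < f x + r ∧ f x < c + r) * (t + 1)) := by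
              ring
          _ ≤ 2 * ((2 * r - 1) * cnt α M fun f => t < len M f x) := Nat.mul_le_mul_left _ h1
          _ = (2 * (2 * r - 1)) * cnt α M fun f => t < len M f x := by ring
          _ ≤ (t + 1) * cnt α M fun f => t < len M f x := Nat.mul_le_mul_right _ hr3
          _ = _ := by ring
      exact Nat.le_of_mul_le_mul_right h3 (by omega)
    have h4 : cnt α M (fun f => t < len M f x) ≤
        cnt α M (fun f => t < len M f x ∧ c < f x + r ∧ f x < c + r) +
        cnt α M (fun f => c + r ≤ f x ∨ f x + r ≤ c) := by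
      refine P11.cnt_le_add fun f _ hf2 => ?_
      by_cases h : c < f x + r ∧ f x < c + r
      · exact Or.inl ⟨hf2, h⟩
      · refine Or.inr ?_
        by_contra h5
        push Not at h5
        exact h ⟨by omega, by omega⟩
    omega

end Pool.Agent.H36.BK
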