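import Pool.Agent.H36.BK.Stubs

set_option autoImplicit false

open Finset Filter Topology
open scoped Classical

namespace Pool.Agent.H36.BK

open Pool.Agent.H36.BK.LW

namespace BK15

variable (α : Type) [Fintype α] [PartialOrder α]

/-- counting by the values at `x` and `y` -/
theorem cnt_split (M : ℕ) (x y : α) (Q : ℕ → ℕ → Prop) [∀ s t, Decidable (Q s t)] :
    (cnt α M (fun f => Q (f x) (f y)) : ℝ) =
      ∑ s ∈ range M, ∑ t ∈ range M,
        if Q s t then (cnt α M (fun f => f x = s ∧ f y = t) : ℝ) else 0 := by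
  have h1 : (cnt α M (fun f => Q (f x) (f y)) : ℝ) =
      ∑ f ∈ Om α M, if Q (f x) (f y) then (1 : ℝ) else 0 := by
    rw [cnt, card_filter]
    push_cast
    refine sum_congr rfl fun f _ => ?_
    by_cases h : Q (f x) (f y) <;> simp [h]
  have h2 : ∀ s t, (cnt α M (fun f => f x = s ∧ f y = t) : ℝ) =
      ∑ f ∈ Om α M, if (f x = s ∧ f y = t) then (1 : ℝ) else 0 := by
    intro s t
    rw [cnt, card_filter]
    push_cast
    refine sum_congr rfl fun f _ => ?_
    by_cases h : f x = s ∧ f y = t <;> simp [h]
  have h3 : ∀ s t, (if Q s t then (cnt α M (fun f => f x = s ∧ f y = t) : ℝ) else 0) =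
      ∑ f ∈ Om α M, if (f x = s ∧ f y = t) then (if Q (f x) (f y) then (1 : ℝ) else 0) else 0 := by
    intro s t
    rw [h2]
    split_ifs with h
    · refine sum_congr rfl fun f _ => ?_
      by_cases hf : f x = s ∧ f y = t
      · rw [if_pos hf, if_pos hf, hf.1, hf.2, if_pos h]
      · rw [if_neg hf, if_neg hf]
    · symm
      refine sum_eq_zero fun f _ => ?_
      by_cases hf : f x = s ∧ f y = t
      · rw [if_pos hf, hf.1, hf.2, if_neg h]
      · rw [if_neg hf]
  simp only [h3]
  rw [h1]
  have h4 : ∀ f ∈ Om α M, (if Q (f x) (f y) then (1 : ℝ) else 0) =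
      ∑ s ∈ range M, ∑ t ∈ range M,
        if (f x = s ∧ f y = t) then (if Q (f x) (f y) then (1 : ℝ) else 0) else 0 := by
    intro f hf
    have hfM := (mem_Om.1 hf).1
    rw [sum_eq_single (f x)]
    · rw [sum_eq_single (f y)]
      · simp
      · intro t _ ht
        rw [if_neg]
        rintro ⟨_, h⟩
        exact ht h.symm
      · intro h
        exact absurd (mem_range.2 (hfM y)) h
    · intro s _ hs
      refine sum_eq_zero fun t _ => ?_
      rw [if_neg]
      rintro ⟨h, _⟩
      exact hs h.symm
    · intro h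
      exact absurd (mem_range.2 (hfM x)) h
  rw [sum_congr rfl h4, sum_comm]
  refine sum_congr rfl fun s _ => ?_
  rw [sum_comm]

end BK15

theorem pair : S_fkg → S_near → S_pair := by
  intro hF hN α _ _ M R b x y K c lam hM hMR hR hb hK hc hpx hpy hH hlam hl
  have hR0 : (0 : ℝ) ≤ R := Nat.cast_nonneg _
  rcases Nat.eq_zero_or_pos (Om α M).card with hT | hT
  · have e1 : ∀ z, pm α M z = fun _ => 0 := by
      intro z
      funext j
      simp [pm, hT]
    rw [e1, e1, hT]
    have : om M (fun _ => 0) (fun _ => 0) = 0 := by simp [om]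
    rw [this]
    simp only [Nat.cast_zero, div_zero, sub_zero, abs_zero]
    positivity
  set T : ℝ := ((Om α M).card : ℝ) with hTdef
  have hT0 : 0 < T := Nat.cast_pos.2 hT
  set q : ℕ → ℕ → ℝ := fun s t => (cnt α M (fun f => f x = s ∧ f y = t) : ℝ) / T with hq
  -- generic
  have hgen : ∀ (Q : ℕ → ℕ → Prop) [∀ s t, Decidable (Q s t)], (∑ s ∈ range M, ∑ t ∈ range M, if Q s t then q s t else 0) =
      (cnt α M (fun f => Q (f x) (f y)) : ℝ) / T := by
    intro Q _
    rw [BK15.cnt_split α M x y Q, sum_div]
    refine sum_congr rfl fun s _ => ?_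
    rw [sum_div]
    refine sum_congr rfl fun t _ => ?_
    simp only [hq]
    split_ifs <;> simp
  have htrue : (cnt α M (fun _ => True) : ℝ) = T := by
    simp [cnt, hTdef]
  have htot : ∑ s ∈ range M, ∑ t ∈ range M, q s t = 1 := by
    have := hgen (fun _ _ => True)
    simp only [if_true] at this
    rw [this, htrue, div_self hT0.ne']
  -- the marginals, for all arguments
  have hq0 : ∀ s t, 0 ≤ q s t := fun s t => by simp only [hq]; positivity
  have hmx : ∀ s, ∑ t ∈ range M, q s t = pm α M x s := by
    intro s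
    have h1 : (Nx α M x s : ℝ) = ∑ t ∈ range M, (cnt α M (fun f => f x = s ∧ f y = t) : ℝ) := by
      have e1 : (Nx α M x s : ℝ) = ∑ f ∈ (Om α M).filter (fun f => f x = s), (1 : ℝ) := by
        rw [sum_const, nsmul_eq_mul, mul_one, Nx, cnt]
        congr!
      rw [e1]
      have hmap : ∀ f ∈ (Om α M).filter (fun f => f x = s), f y ∈ range M := fun f hf =>
        mem_range.2 ((mem_Om.1 (mem_filter.1 hf).1).1 y)
      rw [← sum_fiberwise_of_maps_to hmap]
      refine sum_congr rfl fun t _ => ?_
      rw [filter_filter, sum_const, nsmul_eq_mul, mul_one, cnt]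
      congr!
    simp only [hq, pm]
    rw [← sum_div, h1]
  have hmy : ∀ t, ∑ s ∈ range M, q s t = pm α M y t := by
    intro t
    have h1 : (Nx α M y t : ℝ) = ∑ s ∈ range M, (cnt α M (fun f => f x = s ∧ f y = t) : ℝ) := by
      have e1 : (Nx α M y t : ℝ) = ∑ f ∈ (Om α M).filter (fun f => f y = t), (1 : ℝ) := by
        rw [sum_const, nsmul_eq_mul, mul_one, Nx, cnt]
        congr!
      rw [e1]
      have hmap : ∀ f ∈ (Om α M).filter (fun f => f y = t), f x ∈ range M := fun f hf =>
        mem_range.2 ((mem_Om.1 (mem_filter.1 hf).1).1 x)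
      rw [← sum_fiberwise_of_maps_to hmap]
      refine sum_congr rfl fun s _ => ?_
      rw [filter_filter]
      simp only [cnt, sum_const, nsmul_eq_mul, mul_one]
      congr 2
      ext f
      simp only [mem_filter]
      tauto
    simp only [hq, pm]
    rw [← sum_div, h1]
  -- distribution functions
  have hcx : ∀ s, s < M → ∑ a ∈ range (s + 1), pm α M x a = (cnt α M (fun f => f x ≤ s) : ℝ) / T := by
    intro s hs
    have h1 := hgen (fun a _ => a ≤ s)
    rw [← h1]
    have : ∀ a ∈ range M, (∑ t ∈ range M, if a ≤ s then q a t else 0) =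
        if a ≤ s then pm α M x a else 0 := by
      intro a _
      split_ifs
      · exact hmx a
      · simp
    rw [sum_congr rfl this, ← sum_filter]
    refine sum_congr ?_ fun _ _ => rfl
    ext a
    simp only [mem_range, mem_filter]
    omega
  have hcy : ∀ t, t < M → ∑ a ∈ range (t + 1), pm α M y a = (cnt α M (fun f => f y ≤ t) : ℝ) / T := by
    intro t ht
    have h1 := hgen (fun _ a => a ≤ t)
    rw [← h1, sum_comm]
    have : ∀ a ∈ range M, (∑ s ∈ range M, if a ≤ t then q s a else 0) =
        if a ≤ t then pm α M y a else 0 := by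
      intro a _
      split_ifs
      · exact hmy a
      · simp
    rw [sum_congr rfl this, ← sum_filter]
    refine sum_congr ?_ fun _ _ => rfl
    ext a
    simp only [mem_range, mem_filter]
    omega
  have hcxy : ∀ s t, s < M → t < M → ∑ a ∈ range (s + 1), ∑ b ∈ range (t + 1), q a b =
      (cnt α M (fun f => f x ≤ s ∧ f y ≤ t) : ℝ) / T := by
    intro s t hs ht
    have h1 := hgen (fun a b => a ≤ s ∧ b ≤ t)
    rw [← h1]
    have h2 : ∀ a ∈ range M, (∑ b ∈ range M, if a ≤ s ∧ b ≤ t then q a b else 0) =
        if a ≤ s then ∑ b ∈ range (t + 1), q a b else 0 := by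
      intro a _
      by_cases ha : a ≤ s
      · simp only [ha, true_and, if_true]
        rw [← sum_filter]
        refine sum_congr ?_ fun _ _ => rfl
        ext b
        simp only [mem_range, mem_filter]
        omega
      · simp [ha]
    rw [sum_congr rfl h2, ← sum_filter]
    refine sum_congr ?_ fun _ _ => rfl
    ext a
    simp only [mem_range, mem_filter]
    omega
  have hhh : ∀ s t, s < M → t < M → hh M q s t = Hs α M x y s t / T ^ 2 := by
    intro s t hs ht
    unfold hh Hs
    simp only [hmx, hmy]
    have e1 : ∑ a ∈ range (s + 1), ∑ b ∈ range (t + 1), (q a b - pm α M x a * pm α M y b) =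
        (∑ a ∈ range (s + 1), ∑ b ∈ range (t + 1), q a b) -
          (∑ a ∈ range (s + 1), pm α M x a) * ∑ b ∈ range (t + 1), pm α M y b := by
      rw [sum_mul_sum, ← sum_sub_distrib]
      refine sum_congr rfl fun a _ => ?_
      rw [sum_sub_distrib]
    rw [e1, hcxy s t hs ht, hcx s hs, hcy t ht]
    field_simp
    rw [hTdef]
  have hres := hN M R b q K c lam hM hMR hR hb hK hc hq0 htot
    (fun s _ => by rw [hmx]; exact hpx s) (fun t _ => by rw [hmy]; exact hpy t)
    (fun s t hs ht => by
      rw [hhh s t hs ht]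
      refine div_nonneg ?_ (by positivity)
      unfold Hs
      rw [sub_nonneg]
      exact_mod_cast hF α M x y s t)
    (by
      have e1 : ∑ s ∈ range M, ∑ t ∈ range M, hh M q s t =
          (∑ s ∈ range M, ∑ t ∈ range M, Hs α M x y s t) / T ^ 2 := by
        rw [sum_div]
        refine sum_congr rfl fun s hs => ?_
        rw [sum_div]
        refine sum_congr rfl fun t ht => ?_
        exact hhh s t (mem_range.1 hs) (mem_range.1 ht)
      rw [e1, div_le_iff₀ (by positivity)]
      exact hH)
    hlam hl
  simp only [hmx, hmy] at hres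
  have g1 := hgen (fun s t => s < t)
  have g2 := hgen (fun s t => t < s)
  rw [g1, g2, ← sub_div] at hres
  exact hres

end Pool.Agent.H36.BK
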