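import Pool.Agent.H36.BK.Stubs

set_option autoImplicit false

open Finset Filter Topology
open scoped Classical

namespace Pool.Agent.H36.BK

namespace BK16

/-- the form on an interval -/
noncomputable def W (p q : ℕ → ℝ) (a b : ℕ) : ℝ :=
  ∑ s ∈ Ico a b, ∑ t ∈ Ico a b, if s < t then p s * q t - q s * p t else 0

theorem W_split (p q : ℕ → ℝ) (a m b : ℕ) (h1 : a ≤ m) (h2 : m ≤ b) :
    W p q a b = W p q a m + W p q m b +
      ((∑ s ∈ Ico a m, p s) * (∑ t ∈ Ico m b, q t) - (∑ s ∈ Ico a m, q s) * ∑ t ∈ Ico m b, p t) := by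
  have e1 : ∀ s ∈ Ico a m, (∑ t ∈ Ico a b, if s < t then p s * q t - q s * p t else 0) =
      (∑ t ∈ Ico a m, if s < t then p s * q t - q s * p t else 0) +
        (p s * (∑ t ∈ Ico m b, q t) - q s * ∑ t ∈ Ico m b, p t) := by
    intro s hs
    rw [← sum_Ico_consecutive _ h1 h2]
    congr 1
    rw [mul_sum, mul_sum, ← sum_sub_distrib]
    refine sum_congr rfl fun t ht => ?_
    rw [if_pos ((mem_Ico.1 hs).2.trans_le (mem_Ico.1 ht).1)]
  have e2 : ∀ s ∈ Ico m b, (∑ t ∈ Ico a b, if s < t then p s * q t - q s * p t else 0) =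
      (∑ t ∈ Ico m b, if s < t then p s * q t - q s * p t else 0) := by
    intro s hs
    rw [← sum_Ico_consecutive _ h1 h2]
    have : (∑ t ∈ Ico a m, if s < t then p s * q t - q s * p t else 0) = 0 := by
      refine sum_eq_zero fun t ht => ?_
      rw [if_neg]
      have := (mem_Ico.1 hs).1
      have := (mem_Ico.1 ht).2
      omega
    rw [this, zero_add]
  unfold W
  rw [← sum_Ico_consecutive _ h1 h2, sum_congr rfl e1, sum_congr rfl e2, sum_add_distrib,
    sum_sub_distrib, sum_mul, sum_mul]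
  ring

theorem W_one (p q : ℕ → ℝ) (a : ℕ) : W p q a (a + 1) = 0 := by
  simp [W]

theorem sum_double (f : ℕ → ℝ) (n : ℕ) :
    ∑ i ∈ range (2 * n), f i = ∑ i ∈ range n, (f (2 * i) + f (2 * i + 1)) := by
  induction n with
  | zero => simp
  | succ n ih =>
    rw [show 2 * (n + 1) = 2 * n + 1 + 1 by ring, sum_range_succ, sum_range_succ, ih,
      sum_range_succ]
    ring

theorem nodes_sum (J : ℕ) (F : ℕ × ℕ → ℝ) :
    ∑ u ∈ nodes J, F u = ∑ j ∈ range J, ∑ v ∈ range (2 ^ j), F (j, v) := by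
  unfold nodes
  rw [sum_filter, sum_product]
  refine sum_congr rfl fun j hj => ?_
  rw [← sum_filter]
  refine sum_congr ?_ fun _ _ => rfl
  ext v
  have : 2 ^ j ≤ 2 ^ J := Nat.pow_le_pow_right (by norm_num) (mem_range.1 hj).le
  simp only [mem_filter, mem_range]
  omega

/-- the sum over level `j` of the forms on the nodes -/
noncomputable def T (p q : ℕ → ℝ) (J j : ℕ) : ℝ :=
  ∑ v ∈ range (2 ^ j), W p q (v * 2 ^ (J - j)) ((v + 1) * 2 ^ (J - j))

theorem T_step (p q : ℕ → ℝ) (J j : ℕ) (hj : j < J) :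
    T p q J j = T p q J (j + 1) + ∑ v ∈ range (2 ^ j),
      (mass p J (j + 1) (2 * v) * mass q J (j + 1) (2 * v + 1) -
        mass q J (j + 1) (2 * v) * mass p J (j + 1) (2 * v + 1)) := by
  have hpow : 2 ^ (J - j) = 2 * 2 ^ (J - (j + 1)) := by
    rw [← pow_succ']
    congr 1
    omega
  unfold T
  rw [show 2 ^ (j + 1) = 2 * 2 ^ j from pow_succ' 2 j, sum_double, ← sum_add_distrib]
  refine sum_congr rfl fun v _ => ?_
  unfold mass
  set h := 2 ^ (J - (j + 1)) with hh
  rw [hpow]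
  have a1 : v * (2 * h) = 2 * v * h := by ring
  have a2 : (v + 1) * (2 * h) = (2 * v + 1 + 1) * h := by ring
  rw [a1, a2, W_split p q (2 * v * h) ((2 * v + 1) * h) ((2 * v + 1 + 1) * h)
    (Nat.mul_le_mul_right _ (by omega)) (Nat.mul_le_mul_right _ (by omega))]

theorem T_sum (p q : ℕ → ℝ) (J : ℕ) : ∀ n ≤ J, T p q J 0 = T p q J n + ∑ j ∈ range n,
    ∑ v ∈ range (2 ^ j), (mass p J (j + 1) (2 * v) * mass q J (j + 1) (2 * v + 1) -
        mass q J (j + 1) (2 * v) * mass p J (j + 1) (2 * v + 1)) := by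
  intro n
  induction n with
  | zero => intro _; simp
  | succ n ih =>
    intro hn
    rw [ih (by omega), T_step p q J n (by omega), sum_range_succ]
    ring

end BK16

theorem tree : S_tree := by
  intro J p q
  have h0 : om (2 ^ J) p q = BK16.T p q J 0 := by
    simp [om, BK16.T, BK16.W]
  rw [h0, BK16.T_sum p q J J le_rfl, BK16.nodes_sum]
  have h1 : BK16.T p q J J = 0 := by
    unfold BK16.T
    refine sum_eq_zero fun v _ => ?_
    simp only [Nat.sub_self, pow_zero, mul_one]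
    exact BK16.W_one p q v
  rw [h1, zero_add]

end Pool.Agent.H36.BK
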