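import Pool.Agent.H36.BK.Stubs

set_option autoImplicit false

open Finset Filter Topology
open scoped Classical

namespace Pool.Agent.H36.BK

namespace BK17

/-- the variation function of a unimodal sequence with the peak `m` -/
noncomputable def V (p : ℕ → ℝ) (m n : ℕ) : ℝ := if n ≤ m then p n else 2 * p m - p n

theorem V_le {p : ℕ → ℝ} {m : ℕ} (h1 : ∀ i j, i ≤ j → j ≤ m → p i ≤ p j)
    (h2 : ∀ i j, m ≤ i → i ≤ j → p j ≤ p i) {s t : ℕ} (hst : s ≤ t) :
    |p s - p t| ≤ V p m t - V p m s := by
  unfold V
  by_cases ht : t ≤ m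
  · have hs : s ≤ m := hst.trans ht
    rw [if_pos ht, if_pos hs]
    have := h1 s t hst ht
    rw [abs_le]
    constructor <;> linarith
  · rw [if_neg ht]
    have htm : p t ≤ p m := h2 m t le_rfl (by omega)
    by_cases hs : s ≤ m
    · rw [if_pos hs]
      have hsm : p s ≤ p m := h1 s m hs le_rfl
      rw [abs_le]
      constructor <;> linarith
    · rw [if_neg hs]
      have := h2 s t (by omega) hst
      rw [abs_le]
      constructor <;> linarith

theorem V_mono {p : ℕ → ℝ} {m : ℕ} (h1 : ∀ i j, i ≤ j → j ≤ m → p i ≤ p j)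
    (h2 : ∀ i j, m ≤ i → i ≤ j → p j ≤ p i) {s t : ℕ} (hst : s ≤ t) : V p m s ≤ V p m t := by
  have := V_le h1 h2 hst
  have := abs_nonneg (p s - p t)
  linarith

theorem big_lt {p : ℕ → ℝ} {m : ℕ} (h1 : ∀ i j, i ≤ j → j ≤ m → p i ≤ p j)
    (h2 : ∀ i j, m ≤ i → i ≤ j → p j ≤ p i) {τ : ℝ} {J j v : ℕ} (h : Big τ J p j v) :
    τ < 2 ^ (J - j) * (V p m ((v + 1) * 2 ^ (J - j)) - V p m (v * 2 ^ (J - j))) := by
  obtain ⟨s, hs, t, ht, hlt⟩ := h
  obtain ⟨hs1, hs2⟩ := mem_Ico.1 hs
  obtain ⟨ht1, ht2⟩ := mem_Ico.1 ht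
  refine hlt.trans_le (mul_le_mul_of_nonneg_left ?_ (by positivity))
  have a1 := V_mono h1 h2 hs1
  have a2 := V_mono h1 h2 hs2.le
  have b1 := V_mono h1 h2 ht1
  have b2 := V_mono h1 h2 ht2.le
  rcases le_total s t with hst | hst
  · have := V_le h1 h2 hst
    linarith
  · have := V_le h1 h2 hst
    rw [abs_sub_comm] at this
    linarith

theorem nodes_sum (J : ℕ) (F : ℕ × ℕ → ℝ) :
    ∑ u ∈ nodes J, F u = ∑ j ∈ range J, ∑ v ∈ range (2 ^ j), F (j, v) := by
  unfold nodes
  rw [sum_filter, sum_product]
  refine sum_congr rfl fun j hj => ?_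
  rw [← sum_filter]
  refine sum_congr ?_ fun _ _ => rfl
  ext v
  have : 2 ^ j ≤ 2 ^ J := Nat.pow_le_pow_right (by norm_num) (mem_range.1 hj).le
  simp only [mem_filter, mem_range]
  omega

end BK17

theorem bigs' : S_bigs := by
  intro J l K p hK hp hpK hU
  obtain ⟨m, h1, h2⟩ := hU
  have hpm : p m ≤ K / 2 ^ J := hpK m
  have hV0 : ∀ n, 0 ≤ BK17.V p m n := by
    intro n
    unfold BK17.V
    split_ifs with h
    · exact hp n
    · have : p n ≤ p m := h2 m n le_rfl (by omega)
      have := hp n
      have := hp m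
      linarith
  have hV1 : ∀ n, BK17.V p m n ≤ 2 * K / 2 ^ J := by
    intro n
    have h3 : BK17.V p m n ≤ 2 * p m := by
      unfold BK17.V
      split_ifs with h
      · have : p n ≤ p m := h1 n m h le_rfl
        have := hp m
        linarith
      · have := hp n
        linarith
    calc _ ≤ 2 * p m := h3
      _ ≤ 2 * (K / 2 ^ J) := by linarith
      _ = _ := by ring
  have h4 : (0 : ℝ) < 4 ^ l := by positivity
  constructor
  · -- the number of the big nodes of each level
    have hlev : ∀ j < J, (((range (2 ^ j)).filter (fun v => Big (K / 4 ^ l) J p j v)).card : ℝ) ≤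
        2 * 4 ^ l / 2 ^ j := by
      intro j hj
      set B := (range (2 ^ j)).filter (fun v => Big (K / 4 ^ l) J p j v) with hB
      set D : ℕ → ℝ := fun v => BK17.V p m ((v + 1) * 2 ^ (J - j)) - BK17.V p m (v * 2 ^ (J - j))
        with hD
      have hD0 : ∀ v, 0 ≤ D v := fun v => sub_nonneg.2
        (BK17.V_mono h1 h2 (Nat.mul_le_mul_right _ (by omega)))
      have htel : ∑ v ∈ range (2 ^ j), D v ≤ 2 * K / 2 ^ J := by
        have := sum_range_sub (fun v => BK17.V p m (v * 2 ^ (J - j))) (2 ^ j)
        rw [hD]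
        simp only
        rw [this]
        have a1 := hV1 (2 ^ j * 2 ^ (J - j))
        have a2 := hV0 (0 * 2 ^ (J - j))
        linarith
      have hBs : (B.card : ℝ) * (K / 4 ^ l) ≤ 2 ^ (J - j) * (2 * K / 2 ^ J) := by
        calc (B.card : ℝ) * (K / 4 ^ l) = ∑ v ∈ B, (K / 4 ^ l) := by simp
          _ ≤ ∑ v ∈ B, 2 ^ (J - j) * D v := by
              refine sum_le_sum fun v hv => ?_
              exact (BK17.big_lt h1 h2 (mem_filter.1 hv).2).le
          _ = 2 ^ (J - j) * ∑ v ∈ B, D v := by rw [mul_sum]
          _ ≤ 2 ^ (J - j) * ∑ v ∈ range (2 ^ j), D v := by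
              refine mul_le_mul_of_nonneg_left ?_ (by positivity)
              exact sum_le_sum_of_subset_of_nonneg (filter_subset _ _) fun v _ _ => hD0 v
          _ ≤ _ := mul_le_mul_of_nonneg_left htel (by positivity)
      have hJ : (2 : ℝ) ^ J = 2 ^ j * 2 ^ (J - j) := by
        rw [← pow_add]
        congr 1
        omega
      have h5 : (2 : ℝ) ^ (J - j) * (2 * K / 2 ^ J) = 2 * K / 2 ^ j := by
        rw [hJ]
        field_simp
      rw [h5] at hBs
      rw [le_div_iff₀ (by positivity)]
      rw [mul_div_assoc', div_le_div_iff₀ h4 (by positivity)] at hBs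
      nlinarith [hBs, hK]
    have hsmall : ∀ j, (((range (2 ^ j)).filter (fun v => Big (K / 4 ^ l) J p j v)).card : ℝ) ≤
        2 ^ j := by
      intro j
      have := card_filter_le (range (2 ^ j)) (fun v => Big (K / 4 ^ l) J p j v)
      rw [card_range] at this
      exact_mod_cast this
    have hcard : ((bigs (K / 4 ^ l) J p).card : ℝ) =
        ∑ j ∈ range J, (((range (2 ^ j)).filter (fun v => Big (K / 4 ^ l) J p j v)).card : ℝ) := by
      have e1 : ((bigs (K / 4 ^ l) J p).card : ℝ) =
          ∑ u ∈ nodes J, if Big (K / 4 ^ l) J p u.1 u.2 then (1 : ℝ) else 0 := by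
        rw [bigs, card_filter]
        push_cast
        rfl
      rw [e1, BK17.nodes_sum]
      refine sum_congr rfl fun j _ => ?_
      rw [card_filter]
      push_cast
      rfl
    have hfin : ((bigs (K / 4 ^ l) J p).card : ℝ) ≤ 5 * 2 ^ l := by
      rw [hcard]
      set b : ℕ → ℝ := fun j => if j < l then (2 : ℝ) ^ j else 2 * 4 ^ l / 2 ^ j with hb
      have hb0 : ∀ j, 0 ≤ b j := by
        intro j
        simp only [hb]
        split_ifs <;> positivity
      calc _ ≤ ∑ j ∈ range J, b j := by
            refine sum_le_sum fun j hj => ?_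
            simp only [hb]
            split_ifs with h
            · exact hsmall j
            · exact hlev j (mem_range.1 hj)
        _ ≤ ∑ j ∈ range (l + J), b j := by
            refine sum_le_sum_of_subset_of_nonneg ?_ fun j _ _ => hb0 j
            exact range_subset_range.2 (by omega)
        _ = ∑ j ∈ range l, b j + ∑ i ∈ range J, b (l + i) := sum_range_add _ _ _
        _ ≤ 2 ^ l + 2 * 2 ^ l * 2 := by
            refine add_le_add ?_ ?_
            · have e1 : ∑ j ∈ range l, b j = ∑ j ∈ range l, (2 : ℝ) ^ j := by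
                refine sum_congr rfl fun j hj => ?_
                simp only [hb]
                rw [if_pos (mem_range.1 hj)]
              rw [e1, geom_sum_eq (by norm_num)]
              norm_num
            · have e2 : ∑ i ∈ range J, b (l + i) = 2 * 2 ^ l * ∑ i ∈ range J, (1 / 2 : ℝ) ^ i := by
                rw [mul_sum]
                refine sum_congr rfl fun i _ => ?_
                simp only [hb]
                rw [if_neg (by omega)]
                have : (4 : ℝ) ^ l = 2 ^ l * 2 ^ l := by
                  rw [← mul_pow]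
                  norm_num
                rw [this, pow_add, one_div, inv_pow]
                field_simp
              rw [e2]
              exact mul_le_mul_of_nonneg_left (sum_geometric_two_le J) (by positivity)
        _ = 5 * 2 ^ l := by ring
    exact_mod_cast hfin
  · intro u hu
    obtain ⟨hn, s, hs, t, ht, hlt⟩ := mem_filter.1 hu
    have huJ : u.1 < J := by
      unfold nodes at hn
      have := (mem_filter.1 hn).1
      exact mem_range.1 (mem_product.1 this).1
    have h5 : |p s - p t| ≤ K / 2 ^ J := by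
      have := hp s
      have := hp t
      have := hpK s
      have := hpK t
      rw [abs_le]
      constructor <;> linarith
    have h6 : K / 4 ^ l < 2 ^ (J - u.1) * (K / 2 ^ J) :=
      hlt.trans_le (mul_le_mul_of_nonneg_left h5 (by positivity))
    have hJ : (2 : ℝ) ^ J = 2 ^ u.1 * 2 ^ (J - u.1) := by
      rw [← pow_add]
      congr 1
      omega
    have h7 : (2 : ℝ) ^ (J - u.1) * (K / 2 ^ J) = K / 2 ^ u.1 := by
      rw [hJ]
      field_simp
    rw [h7, div_lt_div_iff_of_pos_left hK h4 (by positivity)] at h6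
    have h8 : (2 : ℝ) ^ u.1 < 2 ^ (2 * l) := by
      rw [pow_mul]
      norm_num
      exact h6
    exact (pow_lt_pow_iff_right₀ (by norm_num)).1 h8

end Pool.Agent.H36.BK
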