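import Pool.Agent.H36.BK.Stubs

set_option autoImplicit false

open Finset Filter Topology
open scoped Classical

namespace Pool.Agent.H36.BK

namespace BK19

theorem card_small {β : Type} (V : Finset β) (m : ℕ) :
    ((V.powerset).filter (fun T => T.card ≤ m)).card ≤ (V.card + 1) ^ m := by
  have hsub : (V.powerset).filter (fun T => T.card ≤ m) ⊆
      (range (m + 1)).biUnion (fun j => V.powersetCard j) := by
    intro T hT
    obtain ⟨h1, h2⟩ := mem_filter.1 hT
    exact mem_biUnion.2 ⟨T.card, mem_range.2 (by omega), mem_powersetCard.2 ⟨mem_powerset.1 h1, rfl⟩⟩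
  calc _ ≤ _ := card_le_card hsub
    _ ≤ ∑ j ∈ range (m + 1), (V.powersetCard j).card := card_biUnion_le
    _ = ∑ j ∈ range (m + 1), V.card.choose j := by simp [card_powersetCard]
    _ ≤ ∑ j ∈ range (m + 1), V.card ^ j * 1 ^ (m - j) * m.choose j := by
        refine sum_le_sum fun j hj => ?_
        have hj' : j ≤ m := by have := mem_range.1 hj; omega
        have h1 : V.card.choose j ≤ V.card ^ j := Nat.choose_le_pow _ _
        have h2 : 1 ≤ m.choose j := Nat.choose_pos hj'
        calc V.card.choose j ≤ V.card ^ j * 1 := by simpa using h1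
          _ ≤ V.card ^ j * m.choose j := Nat.mul_le_mul_left _ h2
          _ = _ := by simp
    _ = (V.card + 1) ^ m := (add_pow _ _ _).symm

theorem close (x y ξ : ℝ) (hξ : 0 < ξ) (hx : 0 ≤ x) (hy : 0 ≤ y)
    (h : ⌊x / ξ⌋₊ = ⌊y / ξ⌋₊) : |x - y| ≤ ξ := by
  have hx1 := Nat.floor_le (div_nonneg hx hξ.le)
  have hx2 := Nat.lt_floor_add_one (x / ξ)
  have hy1 := Nat.floor_le (div_nonneg hy hξ.le)
  have hy2 := Nat.lt_floor_add_one (y / ξ)
  rw [h] at hx1 hx2
  have h1 : |x / ξ - y / ξ| ≤ 1 := by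
    rw [abs_le]
    constructor <;> linarith
  rw [← sub_div, abs_div, abs_of_pos hξ, div_le_one hξ] at h1
  exact h1

end BK19

theorem key : S_key := by
  intro ι υ S U I m g ξ hξ hI hg
  rcases S.eq_empty_or_nonempty with rfl | hne
  · exact ⟨∅, Finset.Subset.refl _, by simp, by simp⟩
  set N : ℕ := ⌊1 / ξ⌋₊ + 1 with hN
  set kf : ι → υ → υ × ℕ × ℕ := fun i u => (u, ⌊(g i u).1 / ξ⌋₊, ⌊(g i u).2 / ξ⌋₊) with hkf
  set ky : ι → Finset (υ × ℕ × ℕ) := fun i => (I i).image (kf i) with hky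
  set V : Finset (υ × ℕ × ℕ) := U ×ˢ (range N ×ˢ range N) with hV
  have hfl : ∀ x : ℝ, x ≤ 1 → ⌊x / ξ⌋₊ < N := by
    intro x hx
    have : ⌊x / ξ⌋₊ ≤ ⌊1 / ξ⌋₊ := Nat.floor_le_floor (by gcongr)
    omega
  have hmap : ∀ i ∈ S, ky i ∈ (V.powerset).filter (fun T => T.card ≤ m) := by
    intro i hi
    refine mem_filter.2 ⟨mem_powerset.2 ?_, card_image_le.trans (hI i hi).2⟩
    intro t ht
    obtain ⟨u, hu, rfl⟩ := mem_image.1 ht
    obtain ⟨_, h1, _, h2⟩ := hg i hi u hu
    exact mem_product.2 ⟨(hI i hi).1 hu, mem_product.2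
      ⟨mem_range.2 (hfl _ h1), mem_range.2 (hfl _ h2)⟩⟩
  have himne : (S.image ky).Nonempty := hne.image _
  obtain ⟨K, hK, hmax⟩ := exists_max_image (S.image ky) (fun K => (S.filter (fun i => ky i = K)).card)
    himne
  refine ⟨S.filter (fun i => ky i = K), filter_subset _ _, ?_, ?_⟩
  · intro i hi j hj
    obtain ⟨hiS, hiK⟩ := mem_filter.1 hi
    obtain ⟨hjS, hjK⟩ := mem_filter.1 hj
    have heq : ky i = ky j := hiK.trans hjK.symm
    have hfst : ∀ i, (ky i).image Prod.fst = I i := by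
      intro i
      simp only [hky, image_image]
      have : (Prod.fst ∘ kf i) = id := by
        funext u
        simp [hkf]
      rw [this, image_id]
    refine ⟨by rw [← hfst i, ← hfst j, heq], ?_⟩
    intro u hu
    have h1 : kf i u ∈ ky j := by
      rw [← heq]
      exact mem_image_of_mem _ hu
    obtain ⟨u', hu', h2⟩ := mem_image.1 h1
    simp only [hkf, Prod.mk.injEq] at h2
    obtain ⟨rfl, h3, h4⟩ := h2
    obtain ⟨a1, _, a2, _⟩ := hg i hiS u' hu
    obtain ⟨b1, _, b2, _⟩ := hg j hjS u' hu'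
    exact ⟨BK19.close _ _ ξ hξ a1 b1 h3.symm, BK19.close _ _ ξ hξ a2 b2 h4.symm⟩
  · have h1 : S.card = ∑ K ∈ S.image ky, (S.filter (fun i => ky i = K)).card :=
      card_eq_sum_card_image ky S
    have h2 : S.card ≤ (S.image ky).card * (S.filter (fun i => ky i = K)).card := by
      rw [h1]
      calc _ ≤ ∑ _K' ∈ S.image ky, (S.filter (fun i => ky i = K)).card :=
            sum_le_sum fun K' hK' => hmax K' hK'
        _ = _ := by simp
    have h3 : (S.image ky).card ≤ (V.card + 1) ^ m := by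
      refine (card_le_card ?_).trans (BK19.card_small V m)
      intro K' hK'
      obtain ⟨i, hi, rfl⟩ := mem_image.1 hK'
      exact hmap i hi
    have h4 : (V.card : ℝ) ≤ U.card * (1 / ξ + 1) ^ 2 := by
      have hVc : V.card = U.card * (N * N) := by simp [hV]
      have hNr : (N : ℝ) ≤ 1 / ξ + 1 := by
        rw [hN]
        push_cast
        have := Nat.floor_le (by positivity : (0 : ℝ) ≤ 1 / ξ)
        linarith
      rw [hVc]
      push_cast
      have h0 : (0 : ℝ) ≤ N := Nat.cast_nonneg _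
      calc (U.card : ℝ) * (N * N) ≤ U.card * ((1 / ξ + 1) * (1 / ξ + 1)) := by gcongr
        _ = _ := by ring
    calc (S.card : ℝ) ≤ ((S.image ky).card : ℝ) * (S.filter (fun i => ky i = K)).card := by
          exact_mod_cast h2
      _ ≤ ((V.card : ℝ) + 1) ^ m * (S.filter (fun i => ky i = K)).card := by
          gcongr
          exact_mod_cast h3
      _ ≤ _ := by gcongr

end Pool.Agent.H36.BK
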