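import Pool.Agent.H36.BK.Stubs

set_option autoImplicit false

open Finset Filter Topology
open scoped Classical

namespace Pool.Agent.H36.BK

open Pool.Agent.H36.BK.LW Pool.Agent.H13R3.WB Pool.Agent.H931R3.Bal

namespace P21

variable {α : Type} [Fintype α] [PartialOrder α]

theorem mono_iff' (σ : α ≃ Fin (Fintype.card α)) : Monotone σ ↔ StrictMono σ := by
  constructor
  · intro h a b hab
    exact lt_of_le_of_ne (h hab.le) (fun heq => hab.ne (σ.injective heq))
  · intro h
    exact h.monotone

theorem prob_eq_e (x y : α) : prob α x y = (eP α x y : ℝ) / eN α := by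
  unfold prob eP eN
  congr 2
  · exact Nat.card_congr (Equiv.subtypeEquivRight fun σ => by rw [mono_iff'])
  · exact Nat.card_congr (Equiv.subtypeEquivRight fun σ => by rw [mono_iff'])

theorem eN_ne {x y : α} (hxy : x ≠ y) : (eN α : ℝ) ≠ 0 := by
  intro h
  have h1 := prob_add hxy
  rw [prob_eq_e, prob_eq_e, h] at h1
  simp at h1

theorem cnt_split (M : ℕ) (Q : (α → ℕ) → Prop) :
    cnt α M Q = cnt α M (fun f => Function.Injective f ∧ Q f) +
      cnt α M (fun f => ¬ Function.Injective f ∧ Q f) := by
  unfold cnt
  rw [← Finset.card_union_of_disjoint]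
  · congr 1
    ext f
    simp only [mem_union, mem_filter]
    tauto
  · rw [Finset.disjoint_left]
    intro f h1 h2
    simp only [mem_filter] at h1 h2
    exact h2.2.1 h1.2.1

theorem tend (x y : α) : Tendsto (fun M : ℕ => (cnt α M (fun f => f x < f y) : ℝ) /
    (M : ℝ) ^ Fintype.card α) atTop (𝓝 ((eP α x y : ℝ) * (1 / (Fintype.card α).factorial))) := by
  have h1 : Tendsto (fun M : ℕ => (cnt α M (fun f => ¬ Function.Injective f ∧ f x < f y) : ℝ) /
      (M : ℝ) ^ Fintype.card α) atTop (𝓝 0) := by
    refine squeeze_zero (fun M => by positivity) (fun M => ?_) (tendsto_noninj (α := α))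
    refine div_le_div_of_nonneg_right ?_ (by positivity)
    have : cnt α M (fun f => ¬ Function.Injective f ∧ f x < f y) ≤
        ((Om α M).filter fun f => ¬ Function.Injective f).card := by
      unfold cnt
      refine Finset.card_le_card fun f hf => ?_
      simp only [mem_filter] at hf ⊢
      exact ⟨hf.1, hf.2.1⟩
    exact_mod_cast this
  have h2 := ((tendsto_choose (Fintype.card α)).const_mul (eP α x y : ℝ)).add h1
  rw [add_zero] at h2
  refine h2.congr fun M => ?_
  have e1 : cnt α M (fun f => Function.Injective f ∧ f x < f y) =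
      eP α x y * M.choose (Fintype.card α) := by
    rw [← card_inj_lt]
    unfold cnt
    congr!
  rw [cnt_split M (fun f => f x < f y), e1]
  push_cast
  ring

end P21

theorem lim : S_lim := by
  intro α _ _ x y hxy
  have h0 := P21.eN_ne hxy
  have hf : ((Fintype.card α).factorial : ℝ) ≠ 0 := by
    exact_mod_cast (Fintype.card α).factorial_ne_zero
  have h1 := ((P21.tend x y).sub (P21.tend y x)).div (tendsto_Om (α := α))
    (mul_ne_zero h0 (one_div_ne_zero hf))
  have h2 : ((eP α x y : ℝ) * (1 / (Fintype.card α).factorial) -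
      (eP α y x : ℝ) * (1 / (Fintype.card α).factorial)) /
      ((eN α : ℝ) * (1 / (Fintype.card α).factorial)) = prob α x y - prob α y x := by
    rw [P21.prob_eq_e, P21.prob_eq_e]
    field_simp
  rw [h2] at h1
  refine h1.congr' ?_
  filter_upwards [eventually_gt_atTop 0] with M hM
  have hM' : (0 : ℝ) < M := by exact_mod_cast hM
  simp only [Pi.div_apply]
  rw [← sub_div, div_div_div_cancel_right₀ (by positivity)]

end Pool.Agent.H36.BK
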