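import Pool.Agent.H36.BK.Stubs

set_option autoImplicit false

open Finset Filter Topology
open scoped Classical

namespace Pool.Agent.H36.BK

namespace BK23

theorem le_exp_of {x y : ℝ} (h : x ≤ y) : x ≤ Real.exp y :=
  h.trans (by linarith [Real.add_one_le_exp y])

theorem two_pow_le (n : ℕ) : (2 : ℝ) ^ n ≤ Real.exp n := by
  have h : (2 : ℝ) ≤ Real.exp 1 := by
    have := Real.exp_one_gt_d9
    linarith
  calc (2 : ℝ) ^ n ≤ Real.exp 1 ^ n := pow_le_pow_left₀ (by norm_num) h n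
    _ = Real.exp n := by rw [← Real.exp_nat_mul, mul_one]

theorem clu_le (l : ℕ) (K ε a L : ℝ) (hK : 0 < K) (hε : 0 < ε) (ha : 1 ≤ a)
    (hε1 : ε ≤ 1) (hL : a = Real.exp (L / 4)) (hεa : 1 / ε = a ^ 4) (h1 : a ≤ 2 ^ l)
    (h2 : (2 : ℝ) ^ l ≤ 2 * a) (hL0 : 0 ≤ L) :
    clu l K ε ≤ Real.exp (150 * a + 35 * a * L + 3 + L + 629 * K ^ 2 * a) := by
  have ha0 : 0 < a := by linarith
  have hfour : (4 : ℝ) ^ l = 2 ^ l * 2 ^ l := by
    rw [← mul_pow]; norm_num
  have height : (8 : ℝ) ^ l = 2 ^ l * 2 ^ l * 2 ^ l := by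
    rw [← mul_pow, ← mul_pow]; norm_num
  have h4a : (4 : ℝ) ^ l ≤ 4 * a ^ 2 := by
    rw [hfour]
    nlinarith [pow_pos (show (0 : ℝ) < 2 by norm_num) l]
  have h8a : a ^ 3 ≤ (8 : ℝ) ^ l := by
    rw [height]
    have hp : (0 : ℝ) < 2 ^ l := by positivity
    calc a ^ 3 = a * a * a := by ring
      _ ≤ 2 ^ l * 2 ^ l * 2 ^ l := by gcongr
  have h4p : (0 : ℝ) < 4 ^ l := by positivity
  -- the base
  have hbase : (4 : ℝ) ^ l * (16 * 4 ^ l / ε + 1) ^ 2 + 1 ≤ Real.exp (15 + 14 * (L / 4)) := by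
    have e1 : 16 * (4 : ℝ) ^ l / ε ≤ 64 * a ^ 6 := by
      calc 16 * (4 : ℝ) ^ l / ε = 16 * 4 ^ l * (1 / ε) := by ring
        _ ≤ 16 * (4 * a ^ 2) * a ^ 4 := by rw [hεa]; gcongr
        _ = 64 * a ^ 6 := by ring
    have ha6 : 1 ≤ a ^ 6 := one_le_pow₀ ha
    have e2 : 16 * (4 : ℝ) ^ l / ε + 1 ≤ 65 * a ^ 6 := by linarith
    have e0 : 0 ≤ 16 * (4 : ℝ) ^ l / ε + 1 := by positivity
    have ha14 : 1 ≤ a ^ 14 := one_le_pow₀ ha
    have e3 : (4 : ℝ) ^ l * (16 * 4 ^ l / ε + 1) ^ 2 + 1 ≤ 2 ^ 15 * a ^ 14 := by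
      calc (4 : ℝ) ^ l * (16 * 4 ^ l / ε + 1) ^ 2 + 1 ≤ 4 * a ^ 2 * (65 * a ^ 6) ^ 2 + a ^ 14 := by
            gcongr
        _ = 16901 * a ^ 14 := by ring
        _ ≤ 2 ^ 15 * a ^ 14 := by
            refine mul_le_mul_of_nonneg_right (by norm_num) (by positivity)
    calc _ ≤ 2 ^ 15 * a ^ 14 := e3
      _ ≤ Real.exp 15 * Real.exp (14 * (L / 4)) := by
          refine mul_le_mul ?_ (le_of_eq ?_) (by positivity) (Real.exp_pos _).le
          · exact_mod_cast two_pow_le 15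
          · rw [hL, ← Real.exp_nat_mul]
            norm_num
      _ = _ := by rw [← Real.exp_add]
  have hbase1 : 1 ≤ (4 : ℝ) ^ l * (16 * 4 ^ l / ε + 1) ^ 2 + 1 := by
    have : 0 ≤ (4 : ℝ) ^ l * (16 * 4 ^ l / ε + 1) ^ 2 := by positivity
    linarith
  have hpow : ((4 : ℝ) ^ l * (16 * 4 ^ l / ε + 1) ^ 2 + 1) ^ (5 * 2 ^ l) ≤
      Real.exp (150 * a + 35 * a * L) := by
    calc _ ≤ Real.exp (15 + 14 * (L / 4)) ^ (5 * 2 ^ l) :=
          pow_le_pow_left₀ (by linarith) hbase _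
      _ = Real.exp (((5 * 2 ^ l : ℕ) : ℝ) * (15 + 14 * (L / 4))) := (Real.exp_nat_mul _ _).symm
      _ ≤ Real.exp (150 * a + 35 * a * L) := by
          rw [Real.exp_le_exp]
          push_cast
          have : 5 * (2 : ℝ) ^ l ≤ 10 * a := by linarith
          calc 5 * (2 : ℝ) ^ l * (15 + 14 * (L / 4)) ≤ 10 * a * (15 + 14 * (L / 4)) :=
                mul_le_mul_of_nonneg_right this (by linarith)
            _ = _ := by ring
  have hmid : 16 / ε + 1 ≤ Real.exp (3 + L) := by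
    have hea : 1 / ε = Real.exp L := by
      rw [hεa, hL, ← Real.exp_nat_mul]
      congr 1
      push_cast
      ring
    have h1e : 1 ≤ Real.exp L := Real.one_le_exp hL0
    have h17 : (17 : ℝ) ≤ Real.exp 3 := by
      have h := Real.exp_one_gt_d9
      have : Real.exp 3 = Real.exp 1 ^ 3 := by
        rw [← Real.exp_nat_mul]
        norm_num
      rw [this]
      calc (17 : ℝ) ≤ 2.7 ^ 3 := by norm_num
        _ ≤ Real.exp 1 ^ 3 := pow_le_pow_left₀ (by norm_num) (by linarith) 3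
    calc 16 / ε + 1 = 16 * (1 / ε) + 1 := by ring
      _ ≤ 17 * Real.exp L := by rw [hea]; linarith
      _ ≤ Real.exp 3 * Real.exp L := by gcongr
      _ = _ := (Real.exp_add _ _).symm
  have hlast : Real.exp (Real.pi * (200 * K ^ 2 / (ε * 8 ^ l))) ≤ Real.exp (629 * K ^ 2 * a) := by
    rw [Real.exp_le_exp]
    have e1 : 1 / (ε * 8 ^ l) ≤ a := by
      have h8p : (0 : ℝ) < 8 ^ l := by positivity
      calc 1 / (ε * 8 ^ l) = (1 / ε) / 8 ^ l := by field_simp
        _ = a ^ 4 / 8 ^ l := by rw [hεa]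
        _ ≤ a := by
            rw [div_le_iff₀ h8p]
            calc a ^ 4 = a * a ^ 3 := by ring
              _ ≤ a * 8 ^ l := by gcongr
    have hpi : Real.pi * 200 ≤ 629 := by
      have := Real.pi_lt_d4
      linarith
    calc Real.pi * (200 * K ^ 2 / (ε * 8 ^ l)) = (Real.pi * 200) * K ^ 2 * (1 / (ε * 8 ^ l)) := by
          ring
      _ ≤ 629 * K ^ 2 * a := by gcongr
  unfold clu
  calc _ ≤ Real.exp (150 * a + 35 * a * L) * Real.exp (3 + L) * Real.exp (629 * K ^ 2 * a) := by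
        gcongr
    _ = _ := by
        rw [← Real.exp_add, ← Real.exp_add]
        congr 1
        ring

end BK23

theorem num : S_num := by
  intro κ w ε hκ hε hε2 hw
  set K : ℝ := 2 ^ (2 * κ + 13) with hK
  have hK1 : (2 : ℝ) ^ 15 ≤ K := pow_le_pow_right₀ (by norm_num) (by omega)
  have hK0 : 0 < K := by positivity
  have hKκ : (κ : ℝ) ≤ K := by
    have h1 : κ < 2 ^ κ := Nat.lt_two_pow_self
    have h2 : (κ : ℝ) ≤ 2 ^ κ := by exact_mod_cast h1.le
    exact h2.trans (pow_le_pow_right₀ (by norm_num) (by omega))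
  have hκ1 : (1 : ℝ) ≤ κ := by exact_mod_cast hκ
  set L : ℝ := Real.log (1 / ε) with hL
  have hL0 : 0 ≤ L := Real.log_nonneg (by rw [le_div_iff₀ hε]; linarith)
  have hεL : 1 / ε = Real.exp L := (Real.exp_log (by positivity)).symm
  set a : ℝ := Real.exp (L / 4) with ha
  have ha1 : 1 ≤ a := Real.one_le_exp (by positivity)
  have ha4 : 1 / ε = a ^ 4 := by
    rw [hεL, ha, ← Real.exp_nat_mul]
    congr 1
    push_cast
    ring
  have haε : ε ^ (-(1 / 4 : ℝ)) = a := by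
    have h1 : Real.log (1 / ε) = -Real.log ε := by rw [one_div, Real.log_inv]
    rw [Real.rpow_def_of_pos hε, ha, hL, h1]
    congr 1
    ring
  set G : ℝ := Real.log (2 / ε) with hG
  have hGL : G = Real.log 2 + L := by
    rw [hG, hL, ← Real.log_mul (by norm_num) (by positivity)]
    congr 1
    ring
  have hlog2 : 0.6931471803 < Real.log 2 := Real.log_two_gt_d9
  have hL2 : Real.log 2 ≤ L := Real.log_le_log (by norm_num) (by rw [le_div_iff₀ hε]; linarith)
  -- `l`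
  obtain ⟨l, hl1, hl2⟩ : ∃ l : ℕ, a ≤ 2 ^ l ∧ (2 : ℝ) ^ l ≤ 2 * a := by
    obtain ⟨n, hn1, hn2⟩ := exists_nat_pow_near ha1 (by norm_num : (1 : ℝ) < 2)
    exact ⟨n + 1, hn2.le, by rw [pow_succ]; linarith⟩
  -- `r`
  obtain ⟨r, hr1, hr2⟩ : ∃ r : ℕ, 8 * K / ε ≤ 2 ^ r ∧ (2 : ℝ) ^ r ≤ 16 * K / ε := by
    have h8 : 1 ≤ 8 * K / ε := by
      rw [le_div_iff₀ hε]
      linarith
    obtain ⟨n, hn1, hn2⟩ := exists_nat_pow_near h8 (by norm_num : (1 : ℝ) < 2)
    refine ⟨n + 1, hn2.le, ?_⟩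
    rw [pow_succ]
    calc (2 : ℝ) ^ n * 2 ≤ 8 * K / ε * 2 := by gcongr
      _ = 16 * K / ε := by ring
  set Y : ℝ := K ^ 5 * κ / ε ^ 6 with hY
  have hY1 : 1 ≤ Y := by
    rw [hY, le_div_iff₀ (by positivity)]
    have h1 : 1 ≤ K ^ 5 := one_le_pow₀ (by linarith)
    have h2 : ε ^ 6 ≤ 1 := pow_le_one₀ hε.le (by linarith)
    nlinarith
  have hY0 : 0 < Y := by linarith
  refine ⟨l, ⌈2 ^ 34 * Y⌉₊, r, ε ^ 2 / (768 * K), ?_, by positivity, hr1, ?_, ?_, ?_⟩
  · exact Nat.one_le_ceil_iff.2 (by positivity)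
  · calc 12 * (2 : ℝ) ^ r * (ε ^ 2 / (768 * K)) ≤ 12 * (16 * K / ε) * (ε ^ 2 / (768 * K)) := by
          gcongr
      _ = ε / 4 := by
          field_simp
          ring
  · have hD : 2 ^ 34 * Y ≤ (⌈2 ^ 34 * Y⌉₊ : ℝ) := Nat.le_ceil _
    have hp : 0 < 2 ^ 34 * Y := by positivity
    calc 32 * K ^ 2 * ((κ : ℝ) / ⌈2 ^ 34 * Y⌉₊) ≤ 32 * K ^ 2 * ((κ : ℝ) / (2 ^ 34 * Y)) := by
          gcongr
      _ = 32 / 2 ^ 34 * (ε ^ 6 / K ^ 3) := by
          rw [hY]
          field_simp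
      _ ≤ 1 / 768 ^ 3 * (ε ^ 6 / K ^ 3) := by
          refine mul_le_mul_of_nonneg_right (by norm_num) (by positivity)
      _ = (ε ^ 2 / (768 * K)) ^ 3 := by
          field_simp
  · have hD : (⌈2 ^ 34 * Y⌉₊ : ℝ) < 2 ^ 34 * Y + 1 := Nat.ceil_lt_add_one (by positivity)
    have hclu := BK23.clu_le l K ε a L hK0 hε ha1 (by linarith) ha ha4 hl1 hl2 hL0
    have hclu0 : 0 < clu l K ε := by
      unfold clu
      positivity
    have hYe : 2 ^ 40 * Y ≤ Real.exp (40 + 6 * K + 6 * L) := by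
      have h1 : (2 : ℝ) ^ 40 ≤ Real.exp 40 := by exact_mod_cast BK23.two_pow_le 40
      have hKe : K ≤ Real.exp K := BK23.le_exp_of le_rfl
      have h2 : K ^ 5 ≤ Real.exp (5 * K) := by
        calc K ^ 5 ≤ Real.exp K ^ 5 := pow_le_pow_left₀ hK0.le hKe 5
          _ = Real.exp (5 * K) := by
              rw [← Real.exp_nat_mul]
              norm_num
      have h3 : (κ : ℝ) ≤ Real.exp K := hKκ.trans hKe
      have h4 : 1 / ε ^ 6 = Real.exp (6 * L) := by
        have : 1 / ε ^ 6 = (1 / ε) ^ 6 := by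
          field_simp
        rw [this, hεL, ← Real.exp_nat_mul]
        norm_num
      calc 2 ^ 40 * Y = 2 ^ 40 * (K ^ 5 * κ * (1 / ε ^ 6)) := by rw [hY]; ring
        _ ≤ Real.exp 40 * (Real.exp (5 * K) * Real.exp K * Real.exp (6 * L)) := by
            rw [h4]
            gcongr
        _ = _ := by
            rw [← Real.exp_add, ← Real.exp_add, ← Real.exp_add]
            congr 1
            ring
    have h12 : 12 * (2 * (⌈2 ^ 34 * Y⌉₊ : ℝ) + 1) ≤ 2 ^ 40 * Y := by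
      nlinarith
    calc 12 * (2 * (⌈2 ^ 34 * Y⌉₊ : ℝ) + 1) * clu l K ε
        ≤ Real.exp (40 + 6 * K + 6 * L) *
          Real.exp (150 * a + 35 * a * L + 3 + L + 629 * K ^ 2 * a) :=
          mul_le_mul (h12.trans hYe) hclu hclu0.le (Real.exp_pos _).le
      _ = Real.exp (40 + 6 * K + 6 * L + (150 * a + 35 * a * L + 3 + L + 629 * K ^ 2 * a)) :=
          (Real.exp_add _ _).symm
      _ < Real.exp (2 ^ (4 * κ + 35) * ε ^ (-(1 / 4 : ℝ)) * Real.log (2 / ε)) := by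
          rw [Real.exp_lt_exp, haε]
          have e1 : (2 : ℝ) ^ (4 * κ + 35) = 512 * K ^ 2 := by
            rw [hK, ← pow_mul, show 4 * κ + 35 = 9 + (2 * κ + 13) * 2 by ring, pow_add]
            norm_num
          rw [e1]
          have e2 : 40 + 6 * K + 6 * L + (150 * a + 35 * a * L + 3 + L + 629 * K ^ 2 * a) ≤
              a * (193 + 6 * K + 42 * L + 629 * K ^ 2) := by
            have g1 : 0 ≤ (a - 1) * (43 + 6 * K + 7 * L) :=
              mul_nonneg (by linarith) (by positivity)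
            nlinarith [g1]
          refine e2.trans_lt ?_
          rw [mul_comm (512 * K ^ 2) a, mul_assoc]
          refine mul_lt_mul_of_pos_left ?_ (by linarith)
          change _ < 512 * K ^ 2 * G
          rw [hGL]
          have g3 : K * 2 ^ 15 ≤ K * K := mul_le_mul_of_nonneg_left hK1 hK0.le
          have g4 : 1.3862943606 ≤ Real.log 2 + L := by linarith
          have g5 : 454 * K ^ 2 * 1.3862943606 ≤ 454 * K ^ 2 * (Real.log 2 + L) :=
            mul_le_mul_of_nonneg_left g4 (by positivity)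
          have g6 : 58 * K ^ 2 * 1 ≤ 58 * K ^ 2 * (Real.log 2 + L) :=
            mul_le_mul_of_nonneg_left (by linarith) (by positivity)
          have g7 : 0 ≤ (K ^ 2 - 42) * L := by
            refine mul_nonneg ?_ hL0
            nlinarith
          have g8 : K ^ 2 * L ≤ K ^ 2 * (Real.log 2 + L) :=
            mul_le_mul_of_nonneg_left (by linarith) (by positivity)
          have g9 : 57 * K ^ 2 * 1 ≤ 57 * K ^ 2 * (Real.log 2 + L) :=
            mul_le_mul_of_nonneg_left (by linarith) (by positivity)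
          nlinarith
      _ ≤ w := hw

end Pool.Agent.H36.BK
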