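import Pool.Agent.H36.BK.Stubs

set_option autoImplicit false

open Finset Filter Topology
open scoped Classical

namespace Pool.Agent.H36.BK

open Pool.Agent.H36.BK.LW Pool.Agent.H13R3.WB Pool.Agent.H931R3.Bal

theorem eN_pos (α : Type) [Fintype α] [PartialOrder α] : 0 < eN α := by
  rw [eN_eq, Finset.card_pos]
  letI : Fintype (LinearExtension α) := inferInstanceAs (Fintype α)
  let e : LinearExtension α ≃o Fin (Fintype.card α) :=
    (Fintype.orderIsoFinOfCardEq (LinearExtension α)
      (rfl : Fintype.card (LinearExtension α) = Fintype.card α)).symm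
  let σ : α ≃ Fin (Fintype.card α) := e.toEquiv
  refine ⟨σ, mem_filter.2 ⟨mem_univ _, fun a b hab => ?_⟩⟩
  have h1 : (toLinearExtension a : LinearExtension α) ≤ toLinearExtension b :=
    toLinearExtension.monotone hab.le
  have h2 : e (toLinearExtension a) < e (toLinearExtension b) :=
    e.lt_iff_lt.2 (lt_of_le_of_ne h1 hab.ne)
  exact h2

/-- doubling the grid -/
theorem Om_double (α : Type) [Fintype α] [PartialOrder α] :
    ∀ᶠ M : ℕ in atTop, (Om α (M + M)).card ≤ 2 ^ (Fintype.card α + 1) * (Om α M).card := by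
  set n := Fintype.card α with hn
  have h1 := tendsto_Om (α := α)
  have hd : Tendsto (fun M : ℕ => M + M) atTop atTop :=
    tendsto_atTop_mono (fun M => Nat.le_add_right M M) tendsto_id
  have h2 := h1.comp hd
  set c : ℝ := (eN α : ℝ) * (1 / (Fintype.card α).factorial) with hc
  have hcpos : 0 < c := by
    have : (0 : ℝ) < eN α := by exact_mod_cast eN_pos α
    have h3 : (0 : ℝ) < (Fintype.card α).factorial := by exact_mod_cast Nat.factorial_pos _
    positivity
  have h3 : ∀ᶠ M : ℕ in atTop, c * (3 / 4) < ((Om α M).card : ℝ) / (M : ℝ) ^ Fintype.card α :=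
    h1.eventually_const_lt (by linarith)
  have h4 : ∀ᶠ M : ℕ in atTop,
      ((Om α (M + M)).card : ℝ) / ((M + M : ℕ) : ℝ) ^ Fintype.card α < c * (5 / 4) :=
    h2.eventually_lt_const (by linarith)
  filter_upwards [h3, h4, eventually_gt_atTop 0] with M h5 h6 hM
  have hM' : (0 : ℝ) < M := by exact_mod_cast hM
  rw [lt_div_iff₀ (by positivity)] at h5
  rw [div_lt_iff₀ (by positivity)] at h6
  have h7 : ((M + M : ℕ) : ℝ) ^ Fintype.card α = 2 ^ n * (M : ℝ) ^ Fintype.card α := by
    push_cast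
    rw [← two_mul, mul_pow, hn]
  rw [h7] at h6
  have h8 : ((Om α (M + M)).card : ℝ) ≤ 2 ^ (n + 1) * (Om α M).card := by
    have h9 : (0 : ℝ) < (M : ℝ) ^ Fintype.card α := by positivity
    have h10 : (0 : ℝ) < 2 ^ n := by positivity
    calc ((Om α (M + M)).card : ℝ) ≤ c * (5 / 4) * (2 ^ n * (M : ℝ) ^ Fintype.card α) := h6.le
      _ ≤ 2 * 2 ^ n * (c * (3 / 4) * (M : ℝ) ^ Fintype.card α) := by
          have : 0 < c * (2 ^ n * (M : ℝ) ^ Fintype.card α) := by positivity
          nlinarith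
      _ ≤ 2 * 2 ^ n * (Om α M).card := mul_le_mul_of_nonneg_left h5.le (by positivity)
      _ = _ := by rw [pow_succ]; ring
  exact_mod_cast h8

theorem few : S_few := by
  intro α _ _ κ A hA hne hcard
  have hw : 0 < A.card := hne.card_pos
  filter_upwards [Om_double α, eventually_ge_atTop (2 ^ (2 * κ + 6))] with M h1 hM
  set B := 2 ^ (2 * κ + 6) with hB
  have hBpos : 0 < B := by positivity
  set t := M / B with ht
  have htpos : 0 < t := Nat.div_pos hM hBpos
  set k := (A.card + 1) / 2 with hk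
  set E := (Om α M).filter fun f =>
    A.card ≤ 2 * (A.filter fun x => len M f x ≤ M / 2 ^ (2 * κ + 6)).card with hE
  have h2 := shift_count (M := M) (m := M) (t := t) (k := k) hA E (filter_subset _ _) (by
    intro f hf
    have := (mem_filter.1 hf).2
    rw [← hB, ← ht] at this
    omega)
  have hBt : B * t ≤ M := Nat.mul_div_le M B
  have h3 : E.card * B ^ k ≤ (Om α (M + M)).card := by
    have htk : 0 < t ^ k := by positivity
    refine Nat.le_of_mul_le_mul_left ?_ htk
    calc t ^ k * (E.card * B ^ k) = E.card * (B * t) ^ k := by rw [mul_pow]; ring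
      _ ≤ E.card * (t + M) ^ k :=
          Nat.mul_le_mul_left _ (Nat.pow_le_pow_left (hBt.trans (Nat.le_add_left _ _)) k)
      _ ≤ _ := h2
  have h4 : 2 ^ ((κ + 3) * A.card) ≤ B ^ k := by
    rw [hB, ← pow_mul]
    refine Nat.pow_le_pow_right (by norm_num) ?_
    have : A.card ≤ 2 * k := by omega
    calc (κ + 3) * A.card ≤ (κ + 3) * (2 * k) := Nat.mul_le_mul_left _ this
      _ = _ := by ring
  have h5 : 2 ^ (Fintype.card α + 1) ≤ 2 ^ (κ * A.card + 1) :=
    Nat.pow_le_pow_right (by norm_num) (by omega)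
  have h6 : E.card * 2 ^ ((κ + 3) * A.card) ≤ 2 ^ (κ * A.card + 1) * (Om α M).card :=
    calc E.card * 2 ^ ((κ + 3) * A.card) ≤ E.card * B ^ k := Nat.mul_le_mul_left _ h4
      _ ≤ (Om α (M + M)).card := h3
      _ ≤ 2 ^ (Fintype.card α + 1) * (Om α M).card := h1
      _ ≤ _ := Nat.mul_le_mul_right _ h5
  have h7 : 2 ^ (κ * A.card + 1) * 4 ≤ 2 ^ ((κ + 3) * A.card) := by
    have : (4 : ℕ) = 2 ^ 2 := by norm_num
    rw [this, ← pow_add]
    refine Nat.pow_le_pow_right (by norm_num) ?_
    nlinarith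
  have hpos : 0 < 2 ^ (κ * A.card + 1) := by positivity
  have hc : (cnt α M fun f => A.card ≤ 2 * (A.filter fun x => len M f x ≤ t).card) = E.card := by
    unfold cnt
    congr 1
    ext f
    simp only [hE, Finset.mem_filter]
    exact Iff.rfl
  rw [hc]
  refine Nat.le_of_mul_le_mul_left ?_ hpos
  calc 2 ^ (κ * A.card + 1) * (4 * E.card) = E.card * (2 ^ (κ * A.card + 1) * 4) := by ring
    _ ≤ E.card * 2 ^ ((κ + 3) * A.card) := Nat.mul_le_mul_left _ h7
    _ ≤ _ := h6

end Pool.Agent.H36.BK
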