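import Pool.Agent.H36.BK.Stubs

/-!
# Project BK: the consequences for the minimal balance constants of the class
-/

set_option autoImplicit false

open Finset Filter Topology
open scoped Classical

namespace Pool.Agent.H36.BK

open Pool.Agent.H36.BK.LW Pool.Agent.H13R3.WB Pool.Agent.H931R3.Bal

/-- The infimum of the balance constants of the posets of width `w` with at most `κ w` elements. -/
noncomputable def dR (κ w : ℕ) : ℝ :=
  sInf {d : ℝ | ∃ (P : Type) (_ : Fintype P) (_ : PartialOrder P),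
    Fintype.card P ≤ κ * w ∧ HasWidth P w ∧ balance P = d}

lemma nonempty_of_width {P : Type} [PartialOrder P] {w : ℕ} (hw : 1 ≤ w) (h : HasWidth P w) :
    Nonempty P := by
  obtain ⟨⟨A, _, hAc⟩, _⟩ := h
  obtain ⟨x, _⟩ := Finset.card_pos.1 (show 0 < A.card by omega)
  exact ⟨x⟩

lemma dR_bdd (κ w : ℕ) (hw : 1 ≤ w) : BddBelow {d : ℝ | ∃ (P : Type) (_ : Fintype P)
    (_ : PartialOrder P), Fintype.card P ≤ κ * w ∧ HasWidth P w ∧ balance P = d} := by
  refine ⟨0, ?_⟩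
  rintro d ⟨Q, _, _, _, h4, rfl⟩
  have := nonempty_of_width hw h4
  exact balance_nonneg

lemma dR_nonempty (κ w : ℕ) (hκ : 1 ≤ κ) (hw : 1 ≤ w) : {d : ℝ | ∃ (P : Type) (_ : Fintype P)
    (_ : PartialOrder P), Fintype.card P ≤ κ * w ∧ HasWidth P w ∧ balance P = d}.Nonempty := by
  obtain ⟨P, i1, i2, -, h2, h3⟩ := exists_anti (w - 1)
  refine ⟨_, P, i1, i2, ?_, ⟨⟨univ, fun x _ y _ hxy h => hxy (h3 x y h), ?_⟩, fun s _ => ?_⟩, rfl⟩
  · rw [h2]
    calc w - 1 + 1 = 1 * w := by omega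
      _ ≤ κ * w := Nat.mul_le_mul_right _ hκ
  · rw [card_univ, h2]; omega
  · refine (card_le_univ s).trans ?_
    rw [h2]; omega

lemma le_dR (hT : S_thm) (κ v : ℕ) (hκ : 1 ≤ κ) (hv : 1 ≤ v) (ε : ℝ) (hε : 0 < ε)
    (hε2 : ε ≤ 1 / 2)
    (h : Real.exp (2 ^ (4 * κ + 35) * ε ^ (-(1 / 4 : ℝ)) * Real.log (2 / ε)) ≤ v) :
    1 / 2 - ε ≤ dR κ v := by
  unfold dR
  apply le_csInf (dR_nonempty κ v hκ hv)
  rintro d ⟨P, _, _, h1, ⟨⟨A, hA, hAc⟩, -⟩, rfl⟩
  exact hT κ v ε hκ hε hε2 h P A hA hAc h1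

lemma dR_nonneg (κ w : ℕ) (hκ : 1 ≤ κ) (hw : 1 ≤ w) : 0 ≤ dR κ w := by
  unfold dR
  apply le_csInf (dR_nonempty κ w hκ hw)
  rintro d ⟨P, _, _, _, h4, rfl⟩
  have := nonempty_of_width hw h4
  exact balance_nonneg

lemma dR_le (hE : S_ex) (κ w : ℕ) (hκ : 3 ≤ κ) (hw : 1 ≤ w) :
    dR κ w ≤ 1 / 2 - 1 / (12 * (w : ℝ) - 8) := by
  obtain ⟨P, i1, i2, h1, h2, h3⟩ := hE w hw
  exact le_trans (csInf_le (dR_bdd κ w hw)
    ⟨P, i1, i2, h2.trans (Nat.mul_le_mul_right _ hκ), h1, rfl⟩) h3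

lemma rate (hT : S_thm) (κ w : ℕ) (hκ : 1 ≤ κ) (hw : 16 ≤ w) :
    1 / 2 - (2 ^ (4 * κ + 37) * (Real.log (Real.log w) / Real.log w)) ^ 4 ≤ dR κ w := by
  have hw' : (16 : ℝ) ≤ w := by exact_mod_cast hw
  have hl2 := Real.log_two_gt_d9
  have hL : (2.7 : ℝ) ≤ Real.log w := by
    have h1 : Real.log 16 ≤ Real.log w := Real.log_le_log (by norm_num) hw'
    have h2 : Real.log 16 = 4 * Real.log 2 := by
      rw [show (16 : ℝ) = 2 ^ 4 by norm_num, Real.log_pow]
      norm_num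
    linarith
  have hLL : (0.5 : ℝ) ≤ Real.log (Real.log w) := by
    have h1 : Real.log 2 ≤ Real.log (Real.log w) := Real.log_le_log (by norm_num) (by linarith)
    linarith
  set L := Real.log w with hLd
  set C : ℝ := 2 ^ (4 * κ + 37) with hC
  have hC2 : (2 : ℝ) ^ 37 ≤ C := pow_le_pow_right₀ (by norm_num) (by omega)
  have hC0 : 0 < C := by positivity
  set q : ℝ := C * (Real.log L / L) with hq
  have hq0 : 0 < q := by
    rw [hq]
    have : 0 < Real.log L := by linarith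
    have : 0 < L := by linarith
    positivity
  by_cases hq1 : q ^ 4 ≤ 1 / 2
  · apply le_dR hT κ w hκ (by omega) (q ^ 4) (by positivity) hq1
    have h1 : (q ^ 4) ^ (-(1 / 4 : ℝ)) = 1 / q := by
      rw [← Real.rpow_natCast, ← Real.rpow_mul hq0.le]
      norm_num
      rw [Real.rpow_neg_one]
    rw [h1]
    have hw0 : (0 : ℝ) < w := by linarith
    rw [← Real.le_log_iff_exp_le hw0, ← hLd]
    have h2 : Real.log (2 / q ^ 4) ≤ 4 * Real.log L := by
      have h3 : 2 / q ^ 4 ≤ L ^ 4 := by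
        rw [div_le_iff₀ (by positivity), ← mul_pow]
        have h4 : L * q = C * Real.log L := by
          rw [hq]
          have : L ≠ 0 := by linarith
          field_simp
        rw [h4]
        have h5 : (2 : ℝ) ≤ C * Real.log L := by nlinarith
        calc (2 : ℝ) ≤ 2 ^ 4 := by norm_num
          _ ≤ (C * Real.log L) ^ 4 := pow_le_pow_left₀ (by norm_num) h5 4
      have h6 := Real.log_le_log (by positivity) h3
      rw [Real.log_pow] at h6
      exact_mod_cast h6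
    have h7 : (2 : ℝ) ^ (4 * κ + 35) * (1 / q) * (4 * Real.log L) = L := by
      have h8 : C = 2 ^ (4 * κ + 35) * 4 := by
        rw [hC, show 4 * κ + 37 = 4 * κ + 35 + 2 by ring, pow_add]
        norm_num
      have h9 : L ≠ 0 := by linarith
      have h10 : Real.log L ≠ 0 := by
        have : 0 < Real.log L := by linarith
        exact this.ne'
      rw [hq, h8]
      field_simp
    calc (2 : ℝ) ^ (4 * κ + 35) * (1 / q) * Real.log (2 / q ^ 4)
        ≤ 2 ^ (4 * κ + 35) * (1 / q) * (4 * Real.log L) :=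
          mul_le_mul_of_nonneg_left h2 (by positivity)
      _ = L := h7
  · have := dR_nonneg κ w hκ (by omega)
    push Not at hq1
    linarith

lemma growth (hT : S_thm) (hE : S_ex) (κ w v : ℕ) (hκ : 3 ≤ κ) (hw : 1 ≤ w)
    (hv : Real.exp (2 ^ (4 * κ + 39) * (w : ℝ) ^ (1 / 4 : ℝ) * Real.log (w + 1)) ≤ v) :
    dR κ w < dR κ v := by
  have hw1 : (1 : ℝ) ≤ w := by exact_mod_cast hw
  have hv0 : (0 : ℝ) < v := lt_of_lt_of_le (Real.exp_pos _) hv
  have hv1 : 1 ≤ v := by exact_mod_cast hv0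
  have h1 := dR_le hE κ w hκ hw
  have h2 := le_dR hT κ v (by omega) hv1 (1 / (12 * w)) (by positivity) (by
    rw [div_le_div_iff₀ (by positivity) (by norm_num)]
    linarith) (by
    refine le_trans (Real.exp_le_exp.2 ?_) hv
    have e1 : (1 / (12 * (w : ℝ))) ^ (-(1 / 4 : ℝ)) = (12 * (w : ℝ)) ^ (1 / 4 : ℝ) := by
      rw [one_div, Real.inv_rpow (by positivity), Real.rpow_neg (by positivity), inv_inv]
    have e2 : 2 / (1 / (12 * (w : ℝ))) = 24 * w := by
      field_simp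
      norm_num
    rw [e1, e2, Real.mul_rpow (by norm_num) (by positivity)]
    have e3 : (12 : ℝ) ^ (1 / 4 : ℝ) ≤ 2 := by
      calc (12 : ℝ) ^ (1 / 4 : ℝ) ≤ (16 : ℝ) ^ (1 / 4 : ℝ) :=
            Real.rpow_le_rpow (by norm_num) (by norm_num) (by norm_num)
        _ = 2 := by
            rw [show (16 : ℝ) = 2 ^ (4 : ℕ) by norm_num, ← Real.rpow_natCast,
              ← Real.rpow_mul (by norm_num)]
            norm_num
    have e4 : Real.log (24 * w) ≤ 8 * Real.log (w + 1) := by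
      have h3 : 24 * (w : ℝ) ≤ (w + 1) ^ 8 := by
        have h4 : (2 : ℝ) ^ 7 ≤ (w + 1) ^ 7 := pow_le_pow_left₀ (by norm_num) (by linarith) 7
        have h5 : ((w : ℝ) + 1) ^ 8 = (w + 1) ^ 7 * (w + 1) := by ring
        rw [h5]
        nlinarith
      have h6 := Real.log_le_log (by positivity) h3
      rw [Real.log_pow] at h6
      exact_mod_cast h6
    have e5 : 0 ≤ Real.log ((w : ℝ) + 1) := Real.log_nonneg (by linarith)
    have e6 : (0 : ℝ) ≤ (w : ℝ) ^ (1 / 4 : ℝ) := by positivity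
    have e7 : (12 : ℝ) ^ (1 / 4 : ℝ) * (w : ℝ) ^ (1 / 4 : ℝ) * Real.log (24 * w) ≤
        2 * (w : ℝ) ^ (1 / 4 : ℝ) * (8 * Real.log (w + 1)) := by
      apply mul_le_mul (mul_le_mul_of_nonneg_right e3 e6) e4
      · apply Real.log_nonneg; linarith
      · positivity
    calc (2 : ℝ) ^ (4 * κ + 35) * ((12 : ℝ) ^ (1 / 4 : ℝ) * (w : ℝ) ^ (1 / 4 : ℝ)) *
          Real.log (24 * w)
        = 2 ^ (4 * κ + 35) * ((12 : ℝ) ^ (1 / 4 : ℝ) * (w : ℝ) ^ (1 / 4 : ℝ) *
          Real.log (24 * w)) := by ring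
      _ ≤ 2 ^ (4 * κ + 35) * (2 * (w : ℝ) ^ (1 / 4 : ℝ) * (8 * Real.log (w + 1))) :=
          mul_le_mul_of_nonneg_left e7 (by positivity)
      _ = 2 ^ (4 * κ + 39) * (w : ℝ) ^ (1 / 4 : ℝ) * Real.log (w + 1) := by
          rw [show 4 * κ + 39 = 4 * κ + 35 + 4 by ring, pow_add]
          ring)
  have h3 : 1 / (12 * (w : ℝ)) < 1 / (12 * (w : ℝ) - 8) :=
    one_div_lt_one_div_of_lt (by linarith) (by linarith)
  linarith

lemma step (hT : S_thm) (hE : S_ex) (κ w : ℕ) (hκ : 3 ≤ κ) (hw : 1 ≤ w) :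
    ∃ u : ℕ, w ≤ u ∧ (u : ℝ) ≤
      Real.exp (2 ^ (4 * κ + 39) * (w : ℝ) ^ (1 / 4 : ℝ) * Real.log (w + 1)) ∧
      dR κ u < dR κ (u + 1) := by
  have hw1 : (1 : ℝ) ≤ w := by exact_mod_cast hw
  set X : ℝ := Real.exp (2 ^ (4 * κ + 39) * (w : ℝ) ^ (1 / 4 : ℝ) * Real.log (w + 1)) with hX
  have hX1 : (w : ℝ) < X := by
    have h1 : Real.log ((w : ℝ) + 1) ≤
        2 ^ (4 * κ + 39) * (w : ℝ) ^ (1 / 4 : ℝ) * Real.log (w + 1) := by
      have h2 : (1 : ℝ) ≤ 2 ^ (4 * κ + 39) * (w : ℝ) ^ (1 / 4 : ℝ) := by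
        have h3 : (1 : ℝ) ≤ 2 ^ (4 * κ + 39) := one_le_pow₀ (by norm_num)
        have h4 : (1 : ℝ) ≤ (w : ℝ) ^ (1 / 4 : ℝ) := Real.one_le_rpow hw1 (by norm_num)
        nlinarith
      have h5 : 0 ≤ Real.log ((w : ℝ) + 1) := Real.log_nonneg (by linarith)
      nlinarith
    have h6 := Real.exp_le_exp.2 h1
    rw [Real.exp_log (by linarith)] at h6
    linarith
  set v : ℕ := ⌈X⌉₊ with hv
  have hvX : X ≤ v := Nat.le_ceil X
  have hvX' : (v : ℝ) < X + 1 := Nat.ceil_lt_add_one (by linarith)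
  have hwv : w < v := by
    have : (w : ℝ) < v := hX1.trans_le hvX
    exact_mod_cast this
  have hg := growth hT hE κ w v hκ hw hvX
  by_contra hcon
  push Not at hcon
  have hmono : ∀ k : ℕ, w + k ≤ v → dR κ (w + k) ≤ dR κ w := by
    intro k
    induction k with
    | zero => intro _; exact le_rfl
    | succ k ih =>
      intro hk
      have h1 := ih (by omega)
      have h2 := hcon (w + k) (by omega) (by
        have h3 : ((w + k : ℕ) : ℝ) + 1 ≤ v := by exact_mod_cast (by omega : w + k + 1 ≤ v)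
        linarith)
      exact h2.trans h1
  have := hmono (v - w) (by omega)
  rw [Nat.add_sub_cancel' hwv.le] at this
  linarith

end Pool.Agent.H36.BK
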