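import Pool.Agent.H36.BK.Stubs

set_option autoImplicit false

open Finset Filter Topology
open scoped Classical

namespace Pool.Agent.H36.BK

open Pool.Agent.H36.BK.LW Pool.Agent.H13R3.WB Pool.Agent.H931R3.Bal

/-- independent sets -/
def IndS {ι : Type} (R : ι → ι → Prop) (S : Finset ι) : Prop :=
  ∀ x ∈ S, ∀ y ∈ S, x ≠ y → ¬ R x y

theorem ind : S_ind := by
  intro ι G R D hsym h
  set deg : ι → ℕ := fun x => (G.filter fun y => x ≠ y ∧ R x y).card with hdeg
  have hsum : ∑ x ∈ G, deg x ≤ D * G.card := by
    refine le_trans (le_of_eq ?_) h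
    rw [Finset.card_filter, Finset.sum_product]
    refine Finset.sum_congr rfl fun x _ => ?_
    rw [hdeg]
    simp only
    rw [Finset.card_filter]
  set G' := G.filter fun x => deg x ≤ 2 * D with hG'
  have hbad : (G.filter fun x => ¬ deg x ≤ 2 * D).card * (2 * D + 1) ≤ D * G.card := by
    refine le_trans ?_ hsum
    calc (G.filter fun x => ¬ deg x ≤ 2 * D).card * (2 * D + 1)
        = ∑ x ∈ G.filter fun x => ¬ deg x ≤ 2 * D, (2 * D + 1) := by
          rw [Finset.sum_const, smul_eq_mul]
      _ ≤ ∑ x ∈ G.filter fun x => ¬ deg x ≤ 2 * D, deg x := by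
          refine Finset.sum_le_sum fun x hx => ?_
          have := (mem_filter.1 hx).2
          omega
      _ ≤ ∑ x ∈ G, deg x := Finset.sum_le_sum_of_subset (filter_subset _ _)
  have hsplit : G'.card + (G.filter fun x => ¬ deg x ≤ 2 * D).card = G.card :=
    Finset.card_filter_add_card_filter_not _
  have hhalf : G.card ≤ 2 * G'.card := by nlinarith
  -- a maximal independent set
  obtain ⟨S, hS, hmax⟩ := Finset.exists_max_image
    (G'.powerset.filter fun S => IndS R S) Finset.card
    ⟨∅, by simp [IndS]⟩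
  obtain ⟨hS1, hS2⟩ := mem_filter.1 hS
  rw [mem_powerset] at hS1
  refine ⟨S, hS1.trans (filter_subset _ _), hS2, ?_⟩
  have hcov : G' ⊆ S.biUnion fun s => insert s (G.filter fun y => s ≠ y ∧ R s y) := by
    intro x hx
    rw [mem_biUnion]
    by_cases hxS : x ∈ S
    · exact ⟨x, hxS, mem_insert_self _ _⟩
    by_contra hcon
    push Not at hcon
    have h1 : insert x S ∈ G'.powerset.filter fun S => IndS R S := by
      rw [mem_filter, mem_powerset]
      refine ⟨insert_subset hx hS1, ?_⟩
      have hno : ∀ s ∈ S, ¬ R s x := by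
        intro s hs hR
        apply hcon s hs
        rw [mem_insert, mem_filter]
        right
        refine ⟨(mem_filter.1 hx).1, ?_, hR⟩
        rintro rfl
        exact hxS hs
      intro a ha b hb hab
      rcases mem_insert.1 ha with ha1 | ha1 <;> rcases mem_insert.1 hb with hb1 | hb1
      · exact absurd (ha1.trans hb1.symm) hab
      · rw [ha1]; exact fun hR => hno b hb1 (hsym _ _ hR)
      · rw [hb1]; exact hno a ha1
      · exact hS2 a ha1 b hb1 hab
    have h2 := hmax _ h1
    rw [card_insert_of_notMem hxS] at h2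
    omega
  have h3 : G'.card ≤ S.card * (2 * D + 1) := by
    refine (card_le_card hcov).trans (card_biUnion_le_card_mul _ _ _ fun s hs => ?_)
    refine (card_insert_le _ _).trans ?_
    have := (mem_filter.1 (hS1 hs)).2
    exact Nat.succ_le_succ this
  calc G.card ≤ 2 * G'.card := hhalf
    _ ≤ 2 * (S.card * (2 * D + 1)) := Nat.mul_le_mul_left _ h3
    _ = _ := by ring

theorem mir_aux (P : Type) [PartialOrder P] (w : ℕ)
    (hw : ∀ s : Finset P, IsAntichain (· ≤ ·) (s : Set P) → s.card ≤ w) :
    ∀ (κ : ℕ) (s : Finset P), (∀ C ⊆ s, IsChain (· ≤ ·) (C : Set P) → C.card ≤ κ) →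
      s.card ≤ κ * w := by
  intro κ
  induction κ with
  | zero =>
    intro s hs
    have : s = ∅ := by
      rw [eq_empty_iff_forall_notMem]
      intro x hx
      have := hs {x} (by simpa using hx) (by simp [IsChain])
      simp at this
    simp [this]
  | succ κ ih =>
    intro s hs
    set m := s.filter fun x => ∀ y ∈ s, ¬ y < x with hm
    have h1 : m.card ≤ w := by
      apply hw
      intro x hx y hy hxy hle
      have hx' := mem_filter.1 (mem_coe.1 hx)
      have hy' := mem_filter.1 (mem_coe.1 hy)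
      exact hy'.2 x hx'.1 (lt_of_le_of_ne hle hxy)
    have h2 : (s \ m).card ≤ κ * w := by
      apply ih
      intro C hC hch
      rcases C.eq_empty_or_nonempty with rfl | hne
      · simp
      obtain ⟨c, hc, hcmin⟩ := C.exists_minimal hne
      have hcs := mem_sdiff.1 (hC hc)
      have : ¬ ∀ y ∈ s, ¬ y < c := fun h => hcs.2 (mem_filter.2 ⟨hcs.1, h⟩)
      push Not at this
      obtain ⟨y, hys, hyc⟩ := this
      have hleast : ∀ z ∈ C, c ≤ z := by
        intro z hz
        rcases eq_or_ne z c with rfl | hne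
        · exact le_rfl
        rcases hch hz hc hne with h | h
        · exact hcmin hz h
        · exact h
      have hyC : y ∉ C := fun h => absurd (hleast y h) (not_le_of_gt hyc)
      have h3 := hs (insert y C) (insert_subset hys (hC.trans sdiff_subset)) (by
        rw [coe_insert]
        refine hch.insert fun z hz _ => Or.inl ?_
        exact (hyc.trans_le (hleast z hz)).le)
      rw [card_insert_of_notMem hyC] at h3
      omega
    have h4 := card_sdiff_add_card_eq_card (filter_subset (fun x => ∀ y ∈ s, ¬ y < x) s)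
    rw [← hm] at h4
    rw [← h4]
    calc (s \ m).card + m.card ≤ κ * w + w := Nat.add_le_add h2 h1
      _ = _ := by ring

theorem mir : S_mir := by
  intro κ w P _ _ hw hC
  rw [← card_univ]
  exact mir_aux P w hw.2 κ univ (fun C _ hch => hC C hch)

theorem sum1 (c : ℝ) (M : ℕ) : ∑ v ∈ range M, ((v : ℝ) - c) = M * ((M : ℝ) - 1) / 2 - M * c := by
  induction M with
  | zero => simp
  | succ M ih => rw [Finset.sum_range_succ, ih]; push_cast; ring

theorem sum2 (c : ℝ) (M : ℕ) : ∑ v ∈ range M, ((v : ℝ) - c) ^ 2 =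
    ((M : ℝ) - 1) * M * (2 * M - 1) / 6 - c * M * ((M : ℝ) - 1) + M * c ^ 2 := by
  induction M with
  | zero => simp
  | succ M ih => rw [Finset.sum_range_succ, ih]; push_cast; ring

theorem iid : S_iid := by
  intro α _ M hM
  have hM' : (M : ℝ) ≠ 0 := by
    have : (1 : ℝ) ≤ M := by exact_mod_cast hM
    linarith
  set g : ℕ → ℝ := fun v => (v : ℝ) - ((M : ℝ) - 1) / 2 with hg
  have hg1 : ∑ v ∈ range M, g v = 0 := by rw [hg, sum1]; ring
  have hg2 : ∑ v ∈ range M, g v * g v = M * (((M : ℝ) ^ 2 - 1) / 12) := by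
    have := sum2 (((M : ℝ) - 1) / 2) M
    have h2 : ∑ v ∈ range M, g v * g v = ∑ v ∈ range M, ((v : ℝ) - ((M : ℝ) - 1) / 2) ^ 2 :=
      Finset.sum_congr rfl fun v _ => by rw [hg]; ring
    rw [h2, this]; ring
  have hpair : ∀ z z' : α, ∑ f ∈ Fm α M, g (f z) * g (f z') =
      if z = z' then (((M : ℝ) ^ 2 - 1) / 12) * (M : ℝ) ^ Fintype.card α else 0 := by
    intro z z'
    have e1 : ∀ f : α → ℕ, g (f z) * g (f z') =
        ∏ u, ((if u = z then g (f u) else 1) * (if u = z' then g (f u) else 1)) := by
      intro f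
      rw [Finset.prod_mul_distrib, Finset.prod_ite_eq' univ z, Finset.prod_ite_eq' univ z',
        if_pos (mem_univ z), if_pos (mem_univ z')]
    rw [Finset.sum_congr rfl fun f _ => e1 f]
    have e2 := Finset.prod_univ_sum (fun _ : α => range M)
      (fun u v => (if u = z then g v else 1) * (if u = z' then g v else 1))
    show ∑ f ∈ Fintype.piFinset fun _ => range M, _ = _
    rw [← e2]
    split_ifs with h
    · subst h
      have e3 : ∀ u : α, ∑ v ∈ range M, ((if u = z then g v else 1) * (if u = z then g v else 1)) =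
          (if u = z then (((M : ℝ) ^ 2 - 1) / 12) else 1) * M := by
        intro u
        split_ifs with hu
        · rw [hg2]; ring
        · simp
      rw [Finset.prod_congr rfl fun u _ => e3 u, Finset.prod_mul_distrib,
        Finset.prod_ite_eq' univ z, if_pos (mem_univ z), Finset.prod_const, card_univ]
    · refine Finset.prod_eq_zero (mem_univ z) ?_
      rw [← hg1]
      refine Finset.sum_congr rfl fun v _ => ?_
      rw [if_pos rfl, if_neg h, mul_one]
  have e4 : ∀ f : α → ℕ, (∑ z, ((f z : ℝ) - ((M : ℝ) - 1) / 2)) ^ 2 =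
      ∑ z, ∑ z', g (f z) * g (f z') := by
    intro f
    rw [sq, Finset.sum_mul_sum]
  rw [Finset.sum_congr rfl fun f _ => e4 f, Finset.sum_comm]
  have e5 : ∀ z : α, ∑ f ∈ Fm α M, ∑ z', g (f z) * g (f z') =
      (((M : ℝ) ^ 2 - 1) / 12) * (M : ℝ) ^ Fintype.card α := by
    intro z
    rw [Finset.sum_comm, Finset.sum_congr rfl fun z' _ => hpair z z']
    simp
  rw [Finset.sum_congr rfl fun z _ => e5 z, Finset.sum_const, card_univ, nsmul_eq_mul]
  ring

end Pool.Agent.H36.BK
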