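import Pool.Agent.H36.BK.Stubs

/-! Project BK, stub BK25: examples with at most `3 w` elements. -/

set_option autoImplicit false

open Finset

namespace Pool.Agent.H36.BK

open Pool.Agent.H13R3.WB Pool.Agent.H931R3.Bal Pool.Agent.TH447.KS Pool.Agent.H293R3.BC
  Pool.Agent.W5h81.RF

theorem ex : S_ex := by
  intro w hw
  obtain ⟨n, r, hn1, hn3, h, hrep⟩ := Pool.Agent.W5h81.RF.exists_poset' w hw
  let _ : PartialOrder (CT n) := poOf r h.po
  refine ⟨CT n, inferInstance, inferInstance, ?_, ?_, ?_⟩
  · refine ⟨?_, ?_⟩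
    · obtain ⟨s, hs1, hs2⟩ := h.wid
      exact ⟨s, fun a ha b hb hab => hs2 a ha b hb hab, hs1⟩
    · intro s hs
      exact h.wid_le s (fun a ha b hb hab => hs ha hb hab)
  · have hcard : Fintype.card (CT n) = n := Fintype.card_fin n
    rw [hcard]
    omega
  · have hcard : Fintype.card (CT n) = n := Fintype.card_fin n
    have hne : Nonempty (CT n) := ⟨(⟨0, hn1⟩ : Fin n)⟩
    have hb0 : (0 : ℝ) ≤ 1 / 2 - 1 / (12 * (w : ℝ) - 8) := by
      have hw1 : (1 : ℝ) ≤ w := by exact_mod_cast hw
      have : 1 / (12 * (w : ℝ) - 8) ≤ 1 / 4 := by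
        apply one_div_le_one_div_of_le (by norm_num)
        linarith
      linarith
    have hprob : ∀ x y : CT n, prob (CT n) x y = A r x y / E r := by
      intro x y
      rw [prob_card hcard, ← card_A, ← card_E]
      rfl
    have : Nonempty (CT n × CT n) := inferInstance
    unfold balance
    apply ciSup_le
    rintro ⟨x, y⟩
    simp only
    by_cases hxy : x ≤ y
    · rw [prob_eq_zero_of_le hxy]
      exact (min_le_right _ _).trans hb0
    · by_cases hyx : y ≤ x
      · rw [prob_eq_zero_of_le hyx]
        exact (min_le_left _ _).trans hb0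
      · rw [hprob, hprob]
        exact h.bal x y hxy hyx

end Pool.Agent.H36.BK
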