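import Pool.Agent.H36.BK.BK05
import Pool.Agent.H36.BK.BK07
import Pool.Agent.H36.BK.BK08
import Pool.Agent.H36.BK.BK11
import Pool.Agent.H36.BK.BK15
import Pool.Agent.H36.BK.BK16
import Pool.Agent.H36.BK.BK17
import Pool.Agent.H36.BK.BK19
import Pool.Agent.H36.BK.BK21
import Pool.Agent.H36.BK.BK23
import Pool.Agent.H36.BK.Clu
import Pool.Agent.H36.BK.FEW
import Pool.Agent.H36.BK.IND
import Pool.Agent.H36.BK.S24
import Pool.Agent.H36.BK.S25
import Pool.Agent.H36.BK.Final
import Pool.Agent.H96.BK.Core
import Pool.Agent.H96.BK.Near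
import Pool.Agent.H96.BK.Norm
import Pool.Agent.H96.BK.Var
import Pool.Agent.H82.BK.Four
import Pool.Agent.H82.BK.Hmax
import Pool.Agent.H82.BK.Lc

/-!
# Project BK: assembly

Stubs proved by helper82 (four, fkg, uni, lc, hmax), helper9 (iid, few, ind, mir), helper33 (img),
helper96 (var, near, norm, core), helper83 (cov, spread, dens, lim), helper68 (pair, tree, bigs, key,
num), helper91 (thm, ex), helper36 (clu).
-/

set_option autoImplicit false

namespace Pool.Agent.H36.BK

theorem thm_all : S_thm :=
  thm (core (H82.BK.uni H82.BK.four) H82.BK.fkg (cov (var iid img))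
    (dens H82.BK.four spread H82.BK.lc few) ind (pair H82.BK.fkg (near H82.BK.hmax)) (clust tree bigs' norm key) lim) num

theorem ex_all : S_ex := ex

theorem mir_all : S_mir := mir

end Pool.Agent.H36.BK
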