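import Pool.Agent.H36.BK.Stubs

set_option autoImplicit false

open Finset Filter Topology
open scoped Classical

namespace Pool.Agent.H36.BK

open Pool.Agent.H36.BK.LW

namespace P05

/-- Injective maps to the grid with image `t` are the bijections to `Fin n`. -/
theorem count_img (α : Type) [Fintype α] (Q : (α ≃ Fin (Fintype.card α)) → Prop)
    (Q' : (α → ℕ) → Prop)
    (hQ : ∀ (σ : α ≃ Fin (Fintype.card α)) (e : Fin (Fintype.card α) ↪o ℕ),
      Q σ ↔ Q' (fun z => e (σ z))) (M : ℕ) (t : Finset ℕ) (ht1 : t ⊆ range M)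
    (ht2 : t.card = Fintype.card α) :
    ((Fm α M).filter fun f => Q' f ∧ (Function.Injective f ∧ univ.image f = t)).card =
      (univ.filter Q).card := by
  symm
  refine Finset.card_bij (fun σ _ => fun z => t.orderEmbOfFin ht2 (σ z)) ?_ ?_ ?_
  · intro σ hσ
    rw [Finset.mem_filter]
    refine ⟨?_, ?_, ?_, ?_⟩
    · unfold Fm
      rw [Fintype.mem_piFinset]
      exact fun z => ht1 (Finset.orderEmbOfFin_mem t ht2 (σ z))
    · exact (hQ σ (t.orderEmbOfFin ht2)).mp (Finset.mem_filter.mp hσ).2
    · exact (t.orderEmbOfFin ht2).injective.comp σ.injective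
    · have h1 : Set.range (fun z => t.orderEmbOfFin ht2 (σ z)) = (t : Set ℕ) := by
        have : (fun z => t.orderEmbOfFin ht2 (σ z)) = (t.orderEmbOfFin ht2) ∘ σ := rfl
        rw [this, Set.range_comp, σ.surjective.range_eq, Set.image_univ,
          Finset.range_orderEmbOfFin]
      apply Finset.coe_injective
      rw [← h1, Finset.coe_image, Finset.coe_univ, Set.image_univ]
  · intro σ _ σ' _ heq
    ext z
    have h1 : t.orderEmbOfFin ht2 (σ z) = t.orderEmbOfFin ht2 (σ' z) := congrFun heq z
    have h2 := (t.orderEmbOfFin ht2).injective h1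
    rw [h2]
  · intro f hf
    obtain ⟨hfF, hQf, hinj, himg⟩ := Finset.mem_filter.mp hf
    have hmem : ∀ z, f z ∈ t := fun z => by
      rw [← himg]; exact Finset.mem_image_of_mem f (Finset.mem_univ z)
    let g : α → t := fun z => ⟨f z, hmem z⟩
    have hg : Function.Bijective g := by
      constructor
      · intro a b hab
        exact hinj (congrArg Subtype.val hab)
      · rintro ⟨v, hv⟩
        have hv' := hv
        rw [← himg] at hv'
        obtain ⟨z, _, hz⟩ := Finset.mem_image.mp hv'
        exact ⟨z, Subtype.ext hz⟩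
    let σ : α ≃ Fin (Fintype.card α) :=
      (Equiv.ofBijective g hg).trans (t.orderIsoOfFin ht2).symm.toEquiv
    have hσ : ∀ z, t.orderEmbOfFin ht2 (σ z) = f z := by
      intro z
      rw [← Finset.coe_orderIsoOfFin_apply]
      have : (t.orderIsoOfFin ht2) (σ z) = g z := by
        show (t.orderIsoOfFin ht2) ((t.orderIsoOfFin ht2).symm (g z)) = g z
        simp
      rw [this]
    have hfun : (fun z => t.orderEmbOfFin ht2 (σ z)) = f := funext hσ
    have hQσ : Q σ := (hQ σ (t.orderEmbOfFin ht2)).mpr (by rw [hfun]; exact hQf)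
    exact ⟨σ, Finset.mem_filter.mpr ⟨Finset.mem_univ _, hQσ⟩, hfun⟩

end P05

/-- BK05. -/
theorem img : S_img := by
  intro α _ _ M t ht1 ht2
  constructor
  · have h1 : ((Om α M).filter fun f => Function.Injective f ∧ univ.image f = t) =
        (Fm α M).filter fun f => Monotone f ∧ (Function.Injective f ∧ univ.image f = t) := by
      ext f
      simp only [Finset.mem_filter, Om, Fm]
      tauto
    rw [h1, eN_eq]
    have h2 := P05.count_img α (fun σ => StrictMono ⇑σ) (fun f => Monotone f)
      (fun σ e => mono_iff σ e) M t ht1 ht2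
    convert h2
  · have h := P05.count_img α (fun _ => True) (fun _ => True) (fun _ _ => Iff.rfl) M t ht1 ht2
    simp only [true_and] at h
    rw [h]
    simp [Fintype.card_equiv (Fintype.equivFin α)]

end Pool.Agent.H36.BK
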