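import Pool.Agent.H36.BK.L.Count
import Pool.Agent.H36.BK.L.Hil
import Pool.Agent.H34.L.W5h81.RF.Upper

/-!
# Project BK: definitions

Balance constants of posets `P` of width `w` with at most `κ w` elements.
`Om α M` (from the vendored file `L/Grid.lean`) is the set of the monotone maps `α → {0, …, M - 1}`,
`len M f x` the number of possible values of `f x` when the other values are kept, `eN`, `eP` count
linear extensions.
-/

set_option autoImplicit false

open Finset Filter Topology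
open scoped Classical

namespace Pool.Agent.H36.BK

open Pool.Agent.H36.BK.LW

/-- number of the monotone maps `α → {0, …, M - 1}` with the property `Q` -/
noncomputable def cnt (α : Type) [Fintype α] [PartialOrder α] (M : ℕ) (Q : (α → ℕ) → Prop) : ℕ :=
  ((Om α M).filter Q).card

/-- number of the monotone maps with value `j` at `x` -/
noncomputable def Nx (α : Type) [Fintype α] [PartialOrder α] (M : ℕ) (x : α) (j : ℕ) : ℕ :=
  cnt α M fun f => f x = j

/-- the law of the value at `x` of a random monotone map -/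
noncomputable def pm (α : Type) [Fintype α] [PartialOrder α] (M : ℕ) (x : α) (j : ℕ) : ℝ :=
  (Nx α M x j : ℝ) / (Om α M).card

/-- `T² (P (f x ≤ s, f y ≤ t) - P (f x ≤ s) P (f y ≤ t))` -/
noncomputable def Hs (α : Type) [Fintype α] [PartialOrder α] (M : ℕ) (x y : α) (s t : ℕ) : ℝ :=
  (cnt α M (fun f => f x ≤ s ∧ f y ≤ t) : ℝ) * (Om α M).card -
    (cnt α M (fun f => f x ≤ s) : ℝ) * (cnt α M fun f => f y ≤ t)

/-- `P (X < Y) - P (Y < X)` for independent `X`, `Y` with the laws `p`, `q` on `{0, …, M - 1}` -/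
noncomputable def om (M : ℕ) (p q : ℕ → ℝ) : ℝ :=
  ∑ s ∈ range M, ∑ t ∈ range M, if s < t then p s * q t - q s * p t else 0

/-- unimodal sequences -/
def Unim (p : ℕ → ℝ) : Prop :=
  ∃ m : ℕ, (∀ i j, i ≤ j → j ≤ m → p i ≤ p j) ∧ ∀ i j, m ≤ i → i ≤ j → p j ≤ p i

/-- mass of the dyadic node `(j, v)`, an interval of `2 ^ (J - j)` points of `{0, …, 2 ^ J - 1}` -/
noncomputable def mass (p : ℕ → ℝ) (J j v : ℕ) : ℝ :=
  ∑ s ∈ Ico (v * 2 ^ (J - j)) ((v + 1) * 2 ^ (J - j)), p s

/-- the node `(j, v)` is big: its length times the oscillation of `p` exceeds `τ` -/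
def Big (τ : ℝ) (J : ℕ) (p : ℕ → ℝ) (j v : ℕ) : Prop :=
  ∃ s ∈ Ico (v * 2 ^ (J - j)) ((v + 1) * 2 ^ (J - j)),
    ∃ t ∈ Ico (v * 2 ^ (J - j)) ((v + 1) * 2 ^ (J - j)), τ < 2 ^ (J - j) * |p s - p t|

/-- the nodes of the levels `0, …, J - 1` -/
def nodes (J : ℕ) : Finset (ℕ × ℕ) :=
  (range J ×ˢ range (2 ^ J)).filter fun u => u.2 < 2 ^ u.1

/-- the big nodes -/
noncomputable def bigs (τ : ℝ) (J : ℕ) (p : ℕ → ℝ) : Finset (ℕ × ℕ) :=
  (nodes J).filter fun u => Big τ J p u.1 u.2

/-- joint distribution function minus the product of the marginal ones -/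
noncomputable def hh (M : ℕ) (q : ℕ → ℕ → ℝ) (s t : ℕ) : ℝ :=
  ∑ a ∈ range (s + 1), ∑ b ∈ range (t + 1),
    (q a b - (∑ b' ∈ range M, q a b') * (∑ a' ∈ range M, q a' b))

/-- the bound on the number of elements of a cluster -/
noncomputable def clu (l : ℕ) (K ε : ℝ) : ℝ :=
  (4 ^ l * (16 * 4 ^ l / ε + 1) ^ 2 + 1) ^ (5 * 2 ^ l) * (16 / ε + 1) *
    Real.exp (Real.pi * (200 * K ^ 2 / (ε * 8 ^ l)))

end Pool.Agent.H36.BK
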