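import Pool.Agent.H36.BK.Defs

/-!
# Project BK: the stubs

Every stub `S_x : Prop` is to be proved as `theorem x : S_x`, or `theorem x : S_a → S_b → S_x` if the
docstring names stubs it depends on.
-/

set_option autoImplicit false

open Finset Filter Topology
open scoped Classical

namespace Pool.Agent.H36.BK

open Pool.Agent.H36.BK.LW Pool.Agent.H13R3.WB Pool.Agent.H931R3.Bal

/-- BK01. Four functions theorem (Mathlib `four_functions_theorem`) on the lattice `α → ℤ`.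
Let `k = b - a = d - c ≥ 0`. For `f ∈ Om` with `f x = a`, `g ∈ Om` with `g x = d` let `g' = g - k`;
then `f ⊔ g' ∈ Om` has the value `c` at `x` and `(f ⊓ g') + k ∈ Om` has the value `b` at `x`. -/
def S_four : Prop :=
  ∀ (α : Type) [Fintype α] [PartialOrder α] (M : ℕ) (x : α) (a b c d : ℕ),
    a ≤ b → a ≤ c → a + d = b + c → Nx α M x a * Nx α M x d ≤ Nx α M x b * Nx α M x c

/-- BK02. FKG (four functions theorem): the two events are lower sets. -/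
def S_fkg : Prop :=
  ∀ (α : Type) [Fintype α] [PartialOrder α] (M : ℕ) (x y : α) (s t : ℕ),
    cnt α M (fun f => f x ≤ s) * cnt α M (fun f => f y ≤ t) ≤
      cnt α M (fun f => f x ≤ s ∧ f y ≤ t) * (Om α M).card

/-- BK03. From `S_four`. `m` = a place where `Nx` is maximal (`Nx` vanishes for `j ≥ M`). For
`m ≤ i ≤ j`: `N m * N j ≤ N i * N (m + j - i) ≤ N i * N m`, and `N m > 0` unless all are zero. -/
def S_uni : Prop :=
  ∀ (α : Type) [Fintype α] [PartialOrder α] (M : ℕ) (x : α), Unim fun j => (Nx α M x j : ℝ)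

/-- BK04. Second moment over all maps (independent uniform values): `∑_{v<M} (v - (M-1)/2) = 0`,
`∑_{v<M} (v - (M-1)/2)^2 = M (M^2-1)/12`; the mixed terms vanish. -/
def S_iid : Prop :=
  ∀ (α : Type) [Fintype α] (M : ℕ), 1 ≤ M →
    ∑ f ∈ Fm α M, (∑ z, ((f z : ℝ) - ((M : ℝ) - 1) / 2)) ^ 2 =
      (M : ℝ) ^ Fintype.card α * (Fintype.card α * ((M : ℝ) ^ 2 - 1) / 12)

/-- BK05. Injective maps with a given image `t` correspond to linear extensions, resp. bijections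
(compare the proof of `count_inj` in `L/Count.lean`). -/
def S_img : Prop :=
  ∀ (α : Type) [Fintype α] [PartialOrder α] (M : ℕ) (t : Finset ℕ), t ⊆ range M →
    t.card = Fintype.card α →
    ((Om α M).filter fun f => Function.Injective f ∧ univ.image f = t).card = eN α ∧
    ((Fm α M).filter fun f => Function.Injective f ∧ univ.image f = t).card =
      (Fintype.card α).factorial

/-- BK06. From `S_iid`, `S_img`. Let `n = card α ≥ 1`, `g f = (∑ z, f z - n (M-1)/2)^2`. For injective `f`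
it depends only on the image, so the sum over the injective `f ∈ Om` is `eN / n!` times the sum over the
injective `f ∈ Fm`, which is at most the sum over all of `Fm` (`S_iid`). The non injective `f ∈ Om`
contribute at most `(n M)^2` times their number, which is `o(M^n)` (`tendsto_noninj`), and
`card Om ≥ eN * choose M n` (`card_Om_split`), `choose M n / M^n → 1/n!` (`tendsto_choose`). -/
def S_var : Prop :=
  ∀ (α : Type) [Fintype α] [PartialOrder α], ∀ᶠ M : ℕ in atTop,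
    ∑ f ∈ Om α M, (∑ z, (f z : ℝ) - Fintype.card α * ((M : ℝ) - 1) / 2) ^ 2 ≤
      (Fintype.card α : ℝ) / 6 * (M : ℝ) ^ 2 * (Om α M).card

/-- BK07. From `S_var`. `∑_{s<M} 1[f x ≤ s] = M - f x`, so with `W f = ∑ x, (M - f x)` the sum is
`T ∑_f (W f)^2 - (∑_f W f)^2 ≤ T ∑_f (W f - c)^2` for every `c`. -/
def S_cov : Prop :=
  ∀ (α : Type) [Fintype α] [PartialOrder α], ∀ᶠ M : ℕ in atTop,
    ∑ x : α, ∑ y : α, ∑ s ∈ range M, ∑ t ∈ range M, Hs α M x y s t ≤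
      (Fintype.card α : ℝ) / 6 * (M : ℝ) ^ 2 * ((Om α M).card : ℝ) ^ 2

/-- BK08. Fibres: keep the values of `f` outside `x`; then `f x` runs over the whole interval
`[lo f x, hi M f x]` of `len M f x` values (see `L/Grid.lean`, `fibE`, `close_count`), at most `2 r - 1`
of which are in `(c - r, c + r)`. -/
def S_spread : Prop :=
  ∀ (α : Type) [Fintype α] [PartialOrder α] (M : ℕ) (x : α) (t c r : ℕ), 1 ≤ r →
    cnt α M (fun f => t < len M f x ∧ c < f x + r ∧ f x < c + r) * (t + 1) ≤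
      (2 * r - 1) * cnt α M fun f => t < len M f x

/-- BK09. Let `N m` be maximal. By the last hypothesis for `c = m` one of the two tails
`∑_{j ≥ m + r} N j`, `∑_{j ≤ m - r} N j` is at least `T/16`. Say the right one: for `j ≥ m`,
`N (j + r) * N m ≤ N (m + r) * N j`; sum over `j ≥ m`: `N m * tail ≤ N (m + r) * T`, so
`N m ≤ 16 N (m + r)`. And `N (m + r) ≤ N j` for `m ≤ j < m + r` (`N m N (m+r) ≤ N j N (2m+r-j)`),
so `r N (m + r) ≤ T`. -/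
def S_lc : Prop :=
  ∀ (N : ℕ → ℕ) (M r : ℕ), 1 ≤ r → (∀ j, M ≤ j → N j = 0) →
    (∀ a b c d, a ≤ b → a ≤ c → a + d = b + c → N a * N d ≤ N b * N c) →
    (∀ c, ∑ j ∈ range M, N j ≤ 8 * ∑ j ∈ (range M).filter (fun j => c + r ≤ j ∨ j + r ≤ c), N j) →
    ∀ j, N j * r ≤ 16 * ∑ i ∈ range M, N i

/-- BK10. `shift_count` (`L/Grid.lean`) with `m := M`, `t := M / 2^(2κ+6)`, `k := (w+1)/2`:
`|E| (t + M)^k ≤ t^k |Om (2 M)|`, and `|Om (2 M)| ≤ 2^(n+1) |Om M|` for large `M` (`tendsto_Om`).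
As `2^(2κ+6) t ≤ M`, `|E| 2^((κ+3) w) ≤ |E| (2^(2κ+6))^k ≤ 2^(κ w + 1) |Om M|`. -/
def S_few : Prop :=
  ∀ (α : Type) [Fintype α] [PartialOrder α] (κ : ℕ) (A : Finset α),
    IsAntichain (· ≤ ·) (A : Set α) → A.Nonempty → Fintype.card α ≤ κ * A.card →
    ∀ᶠ M : ℕ in atTop, 4 * cnt α M (fun f =>
      A.card ≤ 2 * (A.filter fun x => len M f x ≤ M / 2 ^ (2 * κ + 6)).card) ≤ (Om α M).card

/-- BK11. From `S_four`, `S_spread`, `S_lc`, `S_few`. Let `t = M / 2^(2κ+6)`, `r = (t + 3) / 4`,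
`T = card Om`, `w = card A`. By `S_few`, at least `3T/4` maps have more than `w/2` (indeed `≥ w/2`)
elements `x ∈ A` with `len > t`; so at least `w/6` elements `x ∈ A` have `4 #{f : len f x > t} ≥ T`
(double counting). For such `x` and all `c`, by `S_spread` with `2(2r-1) ≤ t+1`:
`#{|f x - c| ≥ r} ≥ #{len > t}/2 ≥ T/8`. `S_lc`: `Nx r ≤ 16 T`, and `r ≥ t/4`, `t ≥ M/2^(2κ+6) - 1`,
so `Nx M ≤ 80 * 2^(2κ+6) T ≤ 2^(2κ+13) T` for `M ≥ 5 * 2^(2κ+6)`. -/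
def S_dens : Prop :=
  ∀ (α : Type) [Fintype α] [PartialOrder α] (κ : ℕ) (A : Finset α),
    IsAntichain (· ≤ ·) (A : Set α) → A.Nonempty → Fintype.card α ≤ κ * A.card →
    ∀ᶠ M : ℕ in atTop, A.card ≤
      6 * (A.filter fun x => ∀ j, Nx α M x j * M ≤ 2 ^ (2 * κ + 13) * (Om α M).card).card

/-- BK12. At least half of the elements of `G` have at most `2 D` bad partners in `G`; a maximal
independent set among them. -/
def S_ind : Prop :=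
  ∀ (ι : Type) (G : Finset ι) (R : ι → ι → Prop) (D : ℕ), (∀ x y, R x y → R y x) →
    ((G ×ˢ G).filter fun u => u.1 ≠ u.2 ∧ R u.1 u.2).card ≤ D * G.card →
    ∃ S ⊆ G, (∀ x ∈ S, ∀ y ∈ S, x ≠ y → ¬ R x y) ∧ G.card ≤ 2 * (2 * D + 1) * S.card

/-- BK13. Let `η = hh s₀ t₀ > 0` (so `η ≤ 1`). One step in `s` or `t` changes `hh` by at most `K/M`.
With `u = ⌊η M / (4 K)⌋ ≤ M/4`, there are at least `(u+1)^2` pairs `(s, t)`, `s, t < M`,
`|s - s₀| ≤ u`, `|t - t₀| ≤ u` (go to the side where there is room), and `hh ≥ η/2` there. So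
`c M^2 ≥ (η/2) (η M/(4K))^2`, i.e. `η^3 ≤ 32 K^2 c ≤ lam^3`. -/
def S_hmax : Prop :=
  ∀ (M : ℕ) (q : ℕ → ℕ → ℝ) (K c lam : ℝ), 2 ≤ M → 1 ≤ K → 0 ≤ c → (∀ s t, 0 ≤ q s t) →
    ∑ s ∈ range M, ∑ t ∈ range M, q s t = 1 →
    (∀ s, s < M → ∑ b ∈ range M, q s b ≤ K / M) → (∀ t, t < M → ∑ a ∈ range M, q a t ≤ K / M) →
    (∀ s t, s < M → t < M → 0 ≤ hh M q s t) →
    ∑ s ∈ range M, ∑ t ∈ range M, hh M q s t ≤ c * (M : ℝ) ^ 2 →
    0 ≤ lam → 32 * K ^ 2 * c ≤ lam ^ 3 → ∀ s t, s < M → t < M → hh M q s t ≤ lam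

/-- BK14. From `S_hmax`. `M = R b`: cut `{0, …, M - 1}` into `R` blocks `B_i` of length `b`. With
`d = q - p p'` (`p`, `p'` the marginals): `∑_{s<t} q = ∑_i q(B_i × later blocks) + ∑_i q({s<t} ∩ B_i²)`,
the same for `p p'`. `d(B_i × [(i+1)b, M)) = - d(B_i × [0, (i+1)b))` is a difference of two values of `hh`
(the row sums of `d` vanish), so at most `lam` in absolute value; `q(B_i²) ≤ p(B_i) p'(B_i) + 2 lam`,
`∑ p(B_i) p'(B_i) ≤ K/R`. So `|∑_{s<t} d| ≤ K/R + 3 R lam`, likewise for `t < s`. -/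
def S_near : Prop :=
  ∀ (M R b : ℕ) (q : ℕ → ℕ → ℝ) (K c lam : ℝ), 2 ≤ M → M = R * b → 1 ≤ R → 1 ≤ b → 1 ≤ K → 0 ≤ c →
    (∀ s t, 0 ≤ q s t) → ∑ s ∈ range M, ∑ t ∈ range M, q s t = 1 →
    (∀ s, s < M → ∑ b ∈ range M, q s b ≤ K / M) → (∀ t, t < M → ∑ a ∈ range M, q a t ≤ K / M) →
    (∀ s t, s < M → t < M → 0 ≤ hh M q s t) →
    ∑ s ∈ range M, ∑ t ∈ range M, hh M q s t ≤ c * (M : ℝ) ^ 2 →
    0 ≤ lam → 32 * K ^ 2 * c ≤ lam ^ 3 →
    |(∑ s ∈ range M, ∑ t ∈ range M, if s < t then q s t else 0) -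
        (∑ s ∈ range M, ∑ t ∈ range M, if t < s then q s t else 0) -
        om M (fun s => ∑ b ∈ range M, q s b) (fun t => ∑ a ∈ range M, q a t)| ≤
      2 * K / R + 12 * R * lam

/-- BK15. From `S_fkg`, `S_near`, with `q s t = cnt (f x = s ∧ f y = t) / T`; then the marginals are
`pm x`, `pm y`, `hh M q s t = Hs / T^2 ≥ 0` (`S_fkg`). -/
def S_pair : Prop :=
  ∀ (α : Type) [Fintype α] [PartialOrder α] (M R b : ℕ) (x y : α) (K c lam : ℝ), 2 ≤ M →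
    M = R * b → 1 ≤ R → 1 ≤ b → 1 ≤ K → 0 ≤ c →
    (∀ j, pm α M x j ≤ K / M) → (∀ j, pm α M y j ≤ K / M) →
    ∑ s ∈ range M, ∑ t ∈ range M, Hs α M x y s t ≤ c * (M : ℝ) ^ 2 * ((Om α M).card : ℝ) ^ 2 →
    0 ≤ lam → 32 * K ^ 2 * c ≤ lam ^ 3 →
    |((cnt α M (fun f => f x < f y) : ℝ) - cnt α M (fun f => f y < f x)) / (Om α M).card -
        om M (pm α M x) (pm α M y)| ≤ 2 * K / R + 12 * R * lam

/-- BK16. The tree identity (induction on `J`, or: every pair `s < t` is separated at exactly one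
node). -/
def S_tree : Prop :=
  ∀ (J : ℕ) (p q : ℕ → ℝ), om (2 ^ J) p q = ∑ u ∈ nodes J,
    (mass p J (u.1 + 1) (2 * u.2) * mass q J (u.1 + 1) (2 * u.2 + 1) -
      mass q J (u.1 + 1) (2 * u.2) * mass p J (u.1 + 1) (2 * u.2 + 1))

/-- BK17. `τ = K / 4^l`. At level `j` the oscillations of a unimodal `p`, `0 ≤ p ≤ K/2^J`, on disjoint
intervals sum up to at most `2 K / 2^J`, so there are at most `2 * 4^l / 2^j` big nodes (and at most
`2^j`), and none for `j ≥ 2 l` as `2^(J-j) K / 2^J = K / 2^j ≤ τ`. Sum: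
`∑_{j<l} 2^j + ∑_{j≥l} 2 * 4^l/2^j ≤ 5 * 2^l`. -/
def S_bigs : Prop :=
  ∀ (J l : ℕ) (K : ℝ) (p : ℕ → ℝ), 0 < K → (∀ s, 0 ≤ p s) → (∀ s, p s ≤ K / 2 ^ J) → Unim p →
    (bigs (K / 4 ^ l) J p).card ≤ 5 * 2 ^ l ∧ ∀ u ∈ bigs (K / 4 ^ l) J p, u.1 < 2 * l

/-- BK18. Let `a = p - q`. If a node `Q = (j₀, v₀)` is not big and `|a(Q)| ≤ ξ` then for a node `u` inside
`Q`, `k` levels below, `|a(u)| ≤ 2^(-k) (2 τ + ξ) ≤ 2^(-k) 3 τ` (the average of `a` on `Q` is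
`a(Q)/|Q|`, and `a` differs from it by at most `2 τ/|Q|`); all nodes inside are not big. So the part of
the sum inside `Q` is at most `∑_{k≥1} 2^k 4^(-k) (3τ)^2 ≤ (3τ)^2`. Induction from the bottom: the part of
the sum inside a node `u` with `|a(u)| ≤ ξ` is at most `(2 #(big nodes inside u) + 1) (3τ)^2`. (A
parent of a big node is big.) -/
def S_norm : Prop :=
  ∀ (J : ℕ) (τ ξ : ℝ) (p q : ℕ → ℝ), 0 ≤ ξ → ξ ≤ τ →
    (∀ u ∈ nodes J, (Big τ J p u.1 u.2 ↔ Big τ J q u.1 u.2)) → mass p J 0 0 = mass q J 0 0 →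
    (∀ u ∈ bigs τ J p,
      |mass p J (u.1 + 1) (2 * u.2) - mass q J (u.1 + 1) (2 * u.2)| ≤ ξ ∧
      |mass p J (u.1 + 1) (2 * u.2 + 1) - mass q J (u.1 + 1) (2 * u.2 + 1)| ≤ ξ) →
    ∑ u ∈ nodes J \ bigs τ J p,
      ((mass p J (u.1 + 1) (2 * u.2) - mass q J (u.1 + 1) (2 * u.2)) ^ 2 +
        (mass p J (u.1 + 1) (2 * u.2 + 1) - mass q J (u.1 + 1) (2 * u.2 + 1)) ^ 2) ≤
      (2 * (bigs τ J p).card + 1) * (3 * τ) ^ 2

/-- BK19. Pigeonhole: the key of `i` is the set of the triples `(u, ⌊g₁/ξ⌋, ⌊g₂/ξ⌋)`, `u ∈ I i`, a set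
of at most `m` elements of a set with at most `X = |U| (1/ξ + 1)^2` elements; there are at most
`(X + 1)^m` such sets. -/
def S_key : Prop :=
  ∀ (ι υ : Type) (S : Finset ι) (U : Finset υ) (I : ι → Finset υ) (m : ℕ) (g : ι → υ → ℝ × ℝ)
    (ξ : ℝ), 0 < ξ → (∀ i ∈ S, I i ⊆ U ∧ (I i).card ≤ m) →
    (∀ i ∈ S, ∀ u ∈ I i, 0 ≤ (g i u).1 ∧ (g i u).1 ≤ 1 ∧ 0 ≤ (g i u).2 ∧ (g i u).2 ≤ 1) →
    ∃ S₁ ⊆ S, (∀ i ∈ S₁, ∀ j ∈ S₁, I i = I j ∧
      ∀ u ∈ I i, |(g i u).1 - (g j u).1| ≤ ξ ∧ |(g i u).2 - (g j u).2| ≤ ξ) ∧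
      (S.card : ℝ) ≤ (U.card * (1 / ξ + 1) ^ 2 + 1) ^ m * S₁.card

/-- BK20. From `S_tree`, `S_bigs`, `S_norm`, `S_key` and `Pool.Agent.H36.BK.Hil.tournament`.
Let `τ = K/4^l`, `ξ = ε/(16 * 4^l)`. Apply `S_key` to `I i = bigs τ J (p i) ⊆ nodes (2 l)` (at most `4^l`
nodes), `m = 5 * 2^l`, `g i u` = the masses of the two children. In the cluster fix `p₀`; second
pigeonhole on `⌊(om p₀ (p i) + 1)/(ε/8)⌋` (at most `16/ε + 1` values, as `|om| ≤ 1`). For `i, j` in the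
subcluster, with `a = p i - p₀`, `b = p j - p₀`: `om (p i) (p j) = om p₀ (p j) - om p₀ (p i) + om a b`,
so `|om a b| ≥ ε - ε/8`. `om a b` is the sum over the nodes (`S_tree`); the big nodes contribute at most
`5 * 2^l * 2 ξ^2 ≤ ε/8`. So the vectors `z i`, indexed by the nodes that are not big, with the entries
`(a(left child) + i a(right child)) / √(ε/2)`, have `|Im ⟨z i, z j⟩| ≥ 1` and square norms at most
`(2/ε) (11 * 2^l) (3τ)^2 ≤ 200 K^2/(ε 8^l)` (`S_norm`). -/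
def S_clu : Prop :=
  ∀ (ι : Type) (S : Finset ι) (p : ι → ℕ → ℝ) (J l : ℕ) (K ε : ℝ), 2 * l ≤ J → 1 ≤ K → 0 < ε →
    ε ≤ 1 → (∀ i ∈ S, (∀ s, 0 ≤ p i s) ∧ ∑ s ∈ range (2 ^ J), p i s = 1 ∧
      (∀ s, p i s ≤ K / 2 ^ J) ∧ Unim (p i)) →
    (∀ i ∈ S, ∀ j ∈ S, i ≠ j → ε ≤ |om (2 ^ J) (p i) (p j)|) → (S.card : ℝ) ≤ clu l K ε

/-- BK21. `prob` (in `H34/L/H13R3/WB/Lin.lean`) and `eP / eN` agree (a bijective monotone map is strictly
monotone); `card_inj_lt`, `tendsto_noninj`, `tendsto_Om`, `card_Om_split` in `L/Count.lean`. -/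
def S_lim : Prop :=
  ∀ (α : Type) [Fintype α] [PartialOrder α] (x y : α), x ≠ y →
    Tendsto (fun M : ℕ => ((cnt α M (fun f => f x < f y) : ℝ) - cnt α M (fun f => f y < f x)) /
      (Om α M).card) atTop (𝓝 (prob α x y - prob α y x))

/-- BK22. From `S_uni`, `S_fkg`, `S_cov`, `S_dens`, `S_ind`, `S_pair`, `S_clu`, `S_lim`. Take
`M = 2 ^ J` with `J` large, `K = 2^(2κ+13)`, `c = κ / D`, `R = 2^r`. `G` = the elements of `A` in
`S_dens`, so `card A ≤ 6 card G`. By `S_cov` and `Hs ≥ 0` (`S_fkg`) there are at most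
`(n/6)/c ≤ D (card A)/6 ≤ D card G` ordered pairs in `G` with `∑∑ Hs > c M^2 T^2`; `S_ind` gives
`S ⊆ G` with `card A ≤ 12 (2D+1) card S` without such pairs. By `S_pair` and `S_lim` (for large `J` the
difference quotient is still `≥ 3ε/2` in absolute value), `|om| ≥ ε` for all pairs in `S`; `S_clu`. -/
def S_core : Prop :=
  ∀ (α : Type) [Fintype α] [PartialOrder α] (κ : ℕ) (A : Finset α) (ε lam : ℝ) (l D r : ℕ),
    1 ≤ κ → IsAntichain (· ≤ ·) (A : Set α) → A.Nonempty → Fintype.card α ≤ κ * A.card →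
    0 < ε → ε ≤ 1 → 1 ≤ D → 0 ≤ lam → 8 * (2 : ℝ) ^ (2 * κ + 13) / ε ≤ 2 ^ r →
    12 * 2 ^ r * lam ≤ ε / 4 → 32 * ((2 : ℝ) ^ (2 * κ + 13)) ^ 2 * (κ / D) ≤ lam ^ 3 →
    (∀ x ∈ A, ∀ y ∈ A, x ≠ y → 3 / 2 * ε < |prob α x y - prob α y x|) →
    (A.card : ℝ) ≤ 12 * (2 * D + 1) * clu l (2 ^ (2 * κ + 13)) ε

/-- BK23. The choice of the parameters. `K = 2^(2κ+13)`, `lam = ε^2/(768 K)`,
`8K/ε ≤ 2^r ≤ 16K/ε`, `D = ⌈2^34 K^5 κ/ε^6⌉` (`32 * 768^3 ≤ 2^34`), so `12(2D+1) ≤ 2^40 K^5 κ/ε^6`;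
`2^l ≥ ε^(-1/4) > 2^(l-1)`, so `4^l < 4 ε^(-1/2)`, `8^l ≥ ε^(-3/4)`;
`log clu ≤ ε^(-1/4) (629 K^2 + 101 + 36 log (1/ε))`. The right hand side is
`512 K^2 ε^(-1/4) log (2/ε)`, and `log (2/ε) ≥ 2 log 2`. -/
def S_num : Prop :=
  ∀ (κ w : ℕ) (ε : ℝ), 1 ≤ κ → 0 < ε → ε ≤ 1 / 2 →
    Real.exp (2 ^ (4 * κ + 35) * ε ^ (-(1 / 4 : ℝ)) * Real.log (2 / ε)) ≤ w →
    ∃ (l D r : ℕ) (lam : ℝ), 1 ≤ D ∧ 0 ≤ lam ∧ 8 * (2 : ℝ) ^ (2 * κ + 13) / ε ≤ 2 ^ r ∧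
      12 * 2 ^ r * lam ≤ ε / 4 ∧ 32 * ((2 : ℝ) ^ (2 * κ + 13)) ^ 2 * (κ / D) ≤ lam ^ 3 ∧
      12 * (2 * D + 1) * clu l (2 ^ (2 * κ + 13)) ε < w

/-- BK24. From `S_core`, `S_num` (with `w = card A`; contradiction gives `x ≠ y` in `A` with
`|prob x y - prob y x| ≤ 3ε/2`; `prob_add`, `le_balance` in `H34/L/H931R3/Bal10.lean`). -/
def S_thm : Prop :=
  ∀ (κ w : ℕ) (ε : ℝ), 1 ≤ κ → 0 < ε → ε ≤ 1 / 2 →
    Real.exp (2 ^ (4 * κ + 35) * ε ^ (-(1 / 4 : ℝ)) * Real.log (2 / ε)) ≤ w →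
    ∀ (P : Type) [Fintype P] [PartialOrder P] (A : Finset P), IsAntichain (· ≤ ·) (A : Set P) →
      A.card = w → Fintype.card P ≤ κ * w → 1 / 2 - ε ≤ balance P

/-- BK25. The proof of `Pool.Agent.W5h81.RF.exists_forest` (`H34/L/W5h81/RF/Upper.lean`), keeping the
bound `n + 1 ≤ 3 w - 1` of `exists_poset'`. -/
def S_ex : Prop :=
  ∀ w : ℕ, 1 ≤ w → ∃ (P : Type) (_ : Fintype P) (_ : PartialOrder P),
    HasWidth P w ∧ Fintype.card P ≤ 3 * w ∧ balance P ≤ 1 / 2 - 1 / (12 * (w : ℝ) - 8)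

/-- BK26. Mirsky: levels by the length of the longest chain below an element. -/
def S_mir : Prop :=
  ∀ (κ w : ℕ) (P : Type) [Fintype P] [PartialOrder P], HasWidth P w →
    (∀ C : Finset P, IsChain (· ≤ ·) (C : Set P) → C.card ≤ κ) → Fintype.card P ≤ κ * w

end Pool.Agent.H36.BK
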